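import Pool.Agent.Helper27.LCY.PG
import Pool.Agent.Helper82.LCY.Plane
import Pool.Agent.Helper98.LCY.LocB
import Pool.Agent.Helper11.LCY.Stmts
import Pool.Agent.Helper51.LCY.P6
import Pool.Agent.Helper62.LCY.B2

/-!
Row NC of the block SURF (MP_f7e214_ag): normal form of a chain of three points.
-/

open Polynomial

namespace LCY

namespace H84

noncomputable section

variable {L : Type} [Field L] [Algebra ℂ L]

open H82

/-- A valuation for which the second coordinate is a uniformizer and the first coordinate is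
residually transcendental is the valuation of the first axis. -/
theorem adic_X (P : Coord L) {v : DVal L} (hx : ResTr v.v P.x) (hy : v.v P.y = 1) :
    IsAdic P X v := by
  refine ⟨Polynomial.irreducible_X, fun n f hf => ?_⟩
  have hxi : v.Int P.x := by
    obtain ⟨h1, h2⟩ := hx X Polynomial.X_ne_zero
    rw [aeval_X] at h2
    exact Or.inr h2.ge
  have hyi : v.Int P.y := Or.inr (by rw [hy]; norm_num)
  have hf0 : f.coeff 0 ≠ 0 := fun h => hf (Polynomial.X_dvd_iff.2 h)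
  have h1 : f = C (f.coeff 0) + X * f.divX := by
    conv_lhs => rw [← Polynomial.X_mul_divX_add f]
    ring
  have h2 : ev P.x P.y f = aeval P.x (f.coeff 0) + P.y * ev P.x P.y f.divX := by
    conv_lhs => rw [h1]
    rw [map_add, map_mul, ev_C, ev_X]
  obtain ⟨h3, h4⟩ := hx _ hf0
  have h5 : v.Pos (P.y * ev P.x P.y f.divX) :=
    v.pos_mul_int (Or.inr (by rw [hy]; norm_num)) (v.int_ev hxi hyi _)
  obtain ⟨h6, h7⟩ := v.val_add_pos h3 h4 h5
  have hfn : f ≠ 0 := fun h => hf (h ▸ dvd_zero _)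
  rw [map_mul, map_pow, ev_X, v.map_mul _ _ (pow_ne_zero _ P.y_ne) (P.ne hfn),
    v.map_pow P.y_ne, hy, h2, h7]
  ring

theorem ordn_X : ordn (X : ℂ[X][X]) = 1 := H62.ordn_eq H62.oe_X

theorem cf_X00 : cf (X : ℂ[X][X]) (0, 0) = 0 := by simp [cf]

/-- The multiplicity of the first axis at the origin. -/
theorem mul_axis (h7 : ST_A7) (P : Coord L) {v : DVal L} (hx : ResTr v.v P.x)
    (hy : v.v P.y = 1) : mul P.loc v = 1 := by
  rw [(h7 L P v X (adic_X P hx hy) cf_X00).1, ordn_X]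
  rfl

/-- The coordinates `(x, x ^ 2 - y)`. -/
theorem exists_sq (P : Coord L) : ∃ Q : Coord L, Q.x = P.x ∧ Q.y = P.x ^ 2 - P.y := by
  have hx := P.x_ne
  obtain ⟨Q1, a1, a2⟩ := P.tor 1 0 (-1) 1 (Or.inl (by norm_num))
  obtain ⟨Q2, b1, b2⟩ := H62.exists_shear Q1 1
  obtain ⟨Q3, c1, c2⟩ := Q2.tor 1 0 1 1 (Or.inl (by norm_num))
  obtain ⟨Q4, d1, d2⟩ := H27.exists_PR Q3 (A := !![1, 0, 0; 0, 1, 0; 0, 0, -1])
    (by rw [Matrix.det_fin_three]; simp)
  refine ⟨Q4, ?_, ?_⟩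
  · rw [d1, lin_def, lin_def]
    simp [c1, b1, a1]
  · rw [d2, lin_def, lin_def]
    simp [c1, c2, b1, b2, a1, a2]
    field_simp
    ring

/-- First step: projective coordinates adapted to the first two points. -/
theorem step1 {S : Coord L} {R0 R1 : Subalgebra ℂ L} (h0 : R0 ∈ plane S) (h1 : Next R0 R1) :
    ∃ B : Matrix (Fin 3) (Fin 3) ℂ, B.det ≠ 0 ∧
      PtAt (lin S (B 1) / lin S (B 2)) (lin S (B 0) / lin S (B 2)) R0 ∧
      PtAt (lin S (B 1) / lin S (B 2)) (lin S (B 0) / lin S (B 1)) R1 := by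
  obtain ⟨A, Q, hdet, rfl, hx, hy⟩ := h0
  obtain ⟨o, rfl⟩ := (H98.next_iff).1 h1
  have n0 := H98.lin_ne S (H98.row_ne hdet 0)
  have n1 := H98.lin_ne S (H98.row_ne hdet 1)
  have n2 := H98.lin_ne S (H98.row_ne hdet 2)
  cases o with
  | some c =>
    refine ⟨Matrix.of ![A 2 + (-c) • A 1, A 1, A 0], ?_, ?_, ?_⟩
    · rw [Matrix.det_fin_three] at hdet ⊢
      simp only [Matrix.of_apply, Matrix.cons_val_zero, Matrix.cons_val_one, Matrix.cons_val,
        Pi.add_apply, Pi.smul_apply, smul_eq_mul]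
      intro h
      apply hdet
      linear_combination -h
    · obtain ⟨Q', e1, e2⟩ := H62.exists_shear Q c
      refine ⟨Q', ?_, ?_, H62.shear_loc e1 e2⟩
      · rw [e1, hx]
        rfl
      · rw [e2, hx, hy]
        change _ = lin S (A 2 + (-c) • A 1) / lin S (A 0)
        rw [H98.lin_add, H98.lin_smul, map_neg]
        field_simp
        ring
    · refine ⟨Q.st (some c), ?_, ?_, rfl⟩
      · rw [Q.st_some_x, hx]
        rfl
      · rw [Q.st_some_y, hx, hy]
        change _ = lin S (A 2 + (-c) • A 1) / lin S (A 1)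
        rw [H98.lin_add, H98.lin_smul, map_neg]
        field_simp
        ring
  | none =>
    refine ⟨Matrix.of ![A 1, A 2, A 0], ?_, ?_, ?_⟩
    · rw [Matrix.det_fin_three] at hdet ⊢
      simp only [Matrix.of_apply, Matrix.cons_val_zero, Matrix.cons_val_one, Matrix.cons_val]
      intro h
      apply hdet
      linear_combination h
    · obtain ⟨Q', e1, e2⟩ := Q.swap
      refine ⟨Q', ?_, ?_, H62.swap_loc e1 e2⟩
      · rw [e1, hy]
        rfl
      · rw [e2, hx]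
        rfl
    · refine ⟨Q.st none, ?_, ?_, rfl⟩
      · rw [Q.st_none_x, hy]
        rfl
      · rw [Q.st_none_y, hx, hy]
        change _ = lin S (A 1) / lin S (A 2)
        field_simp

theorem samePlane_PR {S S' : Coord L} {A : Matrix (Fin 3) (Fin 3) ℂ} (h : H27.PR S S' A)
    (hdet : A.det ≠ 0) : SamePlane S S' := ⟨H27.plane_eq h hdet, H27.deg_eq h hdet⟩

theorem SamePlane.trans {S S' S'' : Coord L} (h : SamePlane S S') (h' : SamePlane S' S'') :
    SamePlane S S'' := ⟨h'.1.trans h.1, fun v => (h'.2 v).trans (h.2 v)⟩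

/-- Second step: affine coordinates adapted to the first two points. -/
theorem step2 {S : Coord L} {R0 R1 : Subalgebra ℂ L} (h0 : R0 ∈ plane S) (h1 : Next R0 R1) :
    ∃ S1 : Coord L, SamePlane S S1 ∧ PtAt (S1.x / S1.y) S1.y⁻¹ R0 ∧
      PtAt (S1.x / S1.y) S1.x⁻¹ R1 := by
  obtain ⟨B, hB, p0, p1⟩ := step1 h0 h1
  obtain ⟨S1, hS1⟩ := H27.exists_PR S hB
  have n0 := H98.lin_ne S (H98.row_ne hB 0)
  have n1 := H98.lin_ne S (H98.row_ne hB 1)
  have n2 := H98.lin_ne S (H98.row_ne hB 2)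
  refine ⟨S1, samePlane_PR hS1 hB, ?_, ?_⟩
  · have e1 : S1.x / S1.y = lin S (B 1) / lin S (B 2) := by rw [hS1.1, hS1.2]; field_simp
    have e2 : S1.y⁻¹ = lin S (B 0) / lin S (B 2) := by rw [hS1.2, inv_div]
    rw [e1, e2]
    exact p0
  · have e1 : S1.x / S1.y = lin S (B 1) / lin S (B 2) := by rw [hS1.1, hS1.2]; field_simp
    have e2 : S1.x⁻¹ = lin S (B 0) / lin S (B 1) := by rw [hS1.1, inv_div]
    rw [e1, e2]
    exact p1

/-- Rescaling the coordinates at a point. -/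
theorem ptAt_smul {u v : L} {R : Subalgebra ℂ L} (h : PtAt u v R) {a b : ℂ} (ha : a ≠ 0)
    (hb : b ≠ 0) : PtAt (algebraMap ℂ L a * u) (algebraMap ℂ L b * v) R := by
  obtain ⟨Q, rfl, rfl, rfl⟩ := h
  obtain ⟨Q', h1, h2⟩ := H27.exists_PR Q (A := !![1, 0, 0; 0, a, 0; 0, 0, b])
    (by rw [Matrix.det_fin_three]; simp [ha, hb])
  have e1 : Q'.x = algebraMap ℂ L a * Q.x := by
    rw [h1, lin_def, lin_def]
    simp
  have e2 : Q'.y = algebraMap ℂ L b * Q.y := by
    rw [h2, lin_def, lin_def]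
    simp
  have ha' : algebraMap ℂ L a ≠ 0 := by simpa using ha
  have hb' : algebraMap ℂ L b ≠ 0 := by simpa using hb
  refine ⟨Q', e1, e2, loc_eq ?_ ?_ ?_ ?_⟩
  · have := vl_mul (vl_const (P := Q') a⁻¹) (vl_x (P := Q'))
    rw [mul_zero, e1, map_inv₀, inv_mul_cancel_left₀ ha'] at this
    exact this
  · have := vl_mul (vl_const (P := Q') b⁻¹) (vl_y (P := Q'))
    rw [mul_zero, e2, map_inv₀, inv_mul_cancel_left₀ hb'] at this
    exact this
  · have := vl_mul (vl_const (P := Q) a) (vl_x (P := Q))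
    rw [mul_zero, ← e1] at this
    exact this
  · have := vl_mul (vl_const (P := Q) b) (vl_y (P := Q))
    rw [mul_zero, ← e2] at this
    exact this

theorem resTr_zero {v : DVal L} {t : L} (h : ResTr v.v t) : t ≠ 0 ∧ v.v t = 0 := by
  have := h X Polynomial.X_ne_zero
  rwa [aeval_X] at this

/-- The third point is not a direction of the curve of the first one. -/
theorem case_none (h6 : ST_A6) {S1 : Coord L} {R0 R2 : Subalgebra ℂ L}
    (p0 : PtAt (S1.x / S1.y) S1.y⁻¹ R0) {Q1 : Coord L} (q1 : Q1.x = S1.x / S1.y)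
    (q2 : Q1.y = S1.x⁻¹) (hR2 : R2 = (Q1.st none).loc) : ∃ v, IsOrd R0 v ∧ Through R2 v := by
  obtain ⟨Q0, e1, e2, rfl⟩ := p0
  have hx := S1.x_ne
  have hy := S1.y_ne
  refine ⟨Q0.ord, isOrd_ord Q0, ?_⟩
  rw [hR2, h6]
  have h1 := H62.resTr_ord Q0
  have h2 : Q0.y / Q0.x = (Q1.st none).x := by
    rw [Q1.st_none_x, e1, e2, q2]
    field_simp
  rw [h2] at h1
  refine ⟨X, adic_X _ h1 ?_, cf_X00⟩
  have h3 : (Q1.st none).y = Q0.x / (Q1.st none).x := by
    rw [Q1.st_none_y, Q1.st_none_x, e1, q1]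
  obtain ⟨h4, h5⟩ := resTr_zero h1
  rw [h3, DVal.map_div _ Q0.x_ne h4, h5, H62.ord_x]
  norm_num

/-- The third point is not a direction of the line. -/
theorem case_zero (h7 : ST_A7) {S1 : Coord L} {R0 R1 R2 : Subalgebra ℂ L}
    (p0 : PtAt (S1.x / S1.y) S1.y⁻¹ R0) {Q1 : Coord L} (q1 : Q1.x = S1.x / S1.y)
    (q2 : Q1.y = S1.x⁻¹) (hR1 : Q1.loc = R1) (hR2 : R2 = (Q1.st (some 0)).loc) :
    ∃ v, deg S1 v = 1 ∧ mul R0 v = 1 ∧ mul R1 v = 1 ∧ mul R2 v = 1 := by
  obtain ⟨Q0, e1, e2, rfl⟩ := p0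
  have hx := S1.x_ne
  have hy := S1.y_ne
  obtain ⟨Ss, s1, s2⟩ := S1.swap
  have hPR : H27.PR S1 Ss !![1, 0, 0; 0, 0, 1; 0, 1, 0] := by
    refine ⟨?_, ?_⟩
    · rw [s1, lin_def, lin_def]
      simp
    · rw [s2, lin_def, lin_def]
      simp
  have hdet : (!![1, 0, 0; 0, 0, 1; 0, 1, 0] : Matrix (Fin 3) (Fin 3) ℂ).det ≠ 0 := by
    rw [Matrix.det_fin_three]
    simp
  have h1 : ResTr Ss.inf.v (S1.x / S1.y) := by
    have := H62.resTr_axis Ss.cinf
    rw [Ss.cinf_y, s1, s2] at this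
    exact this
  have h2 : Ss.inf.v S1.y = -1 := by
    rw [← s1]
    exact inf_x Ss
  obtain ⟨h3, h4⟩ := resTr_zero h1
  have h5 : Ss.inf.v S1.x = -1 := by
    rw [DVal.map_div _ hx hy] at h4
    linarith
  refine ⟨Ss.inf, ?_, ?_, ?_, ?_⟩
  · rw [← H27.deg_eq hPR hdet, H27.deg_of_inf (isInf_inf Ss)]
  · refine mul_axis h7 Q0 (by rw [e1]; exact h1) ?_
    rw [e2, DVal.map_inv _ hy, h2]
    norm_num
  · rw [← hR1]
    refine mul_axis h7 Q1 (by rw [q1]; exact h1) ?_
    rw [q2, DVal.map_inv _ hx, h5]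
    norm_num
  · rw [hR2]
    have h6 : (Q1.st (some 0)).x = S1.x / S1.y := by rw [Q1.st_some_x, q1]
    have h7' : (Q1.st (some 0)).y = S1.y / (S1.x * S1.x) := by
      rw [Q1.st_some_y, q1, q2, map_zero, sub_zero]
      field_simp
    refine mul_axis h7 _ (by rw [h6]; exact h1) ?_
    rw [h7', DVal.map_div _ hy (mul_ne_zero hx hx), DVal.map_mul _ _ _ hx hx, h5, h2]
    norm_num

end

end H84

open H84 H82 in
/-- NC. -/
theorem nc_main (h6 : ST_A6) (h7 : ST_A7) : ST_NC := by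
  intro L _ _ S R hR0 hR1 hR2 hth hno
  obtain ⟨S1, hS1, p0, p1⟩ := step2 hR0 hR1
  have hx := S1.x_ne
  have hy := S1.y_ne
  obtain ⟨Q1, q1, q2, q3⟩ := p1
  rw [← q3] at hR2
  obtain ⟨o, ho⟩ := (H98.next_iff).1 hR2
  cases o with
  | none =>
    obtain ⟨v, h1, h2⟩ := case_none h6 p0 q1 q2 ho
    exact absurd h2 (hth v h1)
  | some c =>
    by_cases hc : c = 0
    · subst hc
      obtain ⟨v, h1, h2, h3, h4⟩ := case_zero h7 p0 q1 q2 q3 ho
      exact absurd ⟨(hS1.2 v).symm.trans h1, h2, h3, h4⟩ (hno v)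
    · have hc' : algebraMap ℂ L c ≠ 0 := by simpa using hc
      obtain ⟨S0, hS0⟩ := H27.exists_PR S1 (A := !![1, 0, 0; 0, 1, 0; 0, 0, c⁻¹])
        (by rw [Matrix.det_fin_three]; simp [hc])
      have hdet : (!![1, 0, 0; 0, 1, 0; 0, 0, c⁻¹] : Matrix (Fin 3) (Fin 3) ℂ).det ≠ 0 := by
        rw [Matrix.det_fin_three]
        simp [hc]
      have e1 : S0.x = S1.x := by
        rw [hS0.1, lin_def, lin_def]
        simp
      have e2 : S0.y = S1.y / algebraMap ℂ L c := by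
        rw [hS0.2, lin_def, lin_def]
        simp
        field_simp
      obtain ⟨S', s1, s2⟩ := exists_sq S0
      refine ⟨S0, S', SamePlane.trans hS1 (samePlane_PR hS0 hdet), s1, s2, ?_, ?_, ?_⟩
      · have h := ptAt_smul p0 hc hc
        have k1 : S0.x / S0.y = algebraMap ℂ L c * (S1.x / S1.y) := by
          rw [e1, e2]
          field_simp
        have k2 : S0.y⁻¹ = algebraMap ℂ L c * S1.y⁻¹ := by
          rw [e2]
          field_simp
        rw [k1, k2]
        exact h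
      · have h := ptAt_smul (R := R 1) ⟨Q1, q1, q2, q3⟩ hc one_ne_zero
        have k1 : S0.x / S0.y = algebraMap ℂ L c * (S1.x / S1.y) := by
          rw [e1, e2]
          field_simp
        have k2 : S0.x⁻¹ = algebraMap ℂ L 1 * S1.x⁻¹ := by
          rw [e1, map_one, one_mul]
        rw [k1, k2]
        exact h
      · have h := ptAt_smul (u := (Q1.st (some c)).x) (v := (Q1.st (some c)).y) (R := R 2)
          ⟨Q1.st (some c), rfl, rfl, ho.symm⟩ hc (inv_ne_zero hc)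
        have k1 : S0.x / S0.y = algebraMap ℂ L c * (Q1.st (some c)).x := by
          rw [e1, e2, Q1.st_some_x, q1]
          field_simp
        have k2 : S0.y / S0.x ^ 2 - 1 = algebraMap ℂ L c⁻¹ * (Q1.st (some c)).y := by
          rw [e1, e2, Q1.st_some_y, q1, q2, map_inv₀]
          field_simp
        rw [k1, k2]
        exact h

end LCY
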