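import Pool.Agent.Helper11.LCY.Stmts

/-!
Row QS of the block SURF (MP_f7e214_ag): from the standard quadratic transformations to
structures with more points.
-/

open Polynomial Pool.Agent.Helper82.LCY

namespace LCY

namespace H84

noncomputable section

variable {L : Type} [Field L] [Algebra ℂ L]

theorem mul_zero_of {R : Subalgebra ℂ L} {v : DVal L} (h1 : ¬ IsOrd R v) (h2 : ¬ Through R v) :
    mul R v = 0 := by
  unfold mul
  rw [if_neg h1, if_neg h2]

/-- The first three points. -/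
def fst3 {k : ℕ} (R : Fin (k + 3) → Subalgebra ℂ L) : Fin 3 → Subalgebra ℂ L :=
  fun i => R (Fin.castLE (Nat.le_add_left 3 k) i)

theorem castLE_zero' (k : ℕ) : (Fin.castLE (Nat.le_add_left 3 k) 0 : Fin (k + 3)) = 0 := rfl

theorem castLE_one' (k : ℕ) : (Fin.castLE (Nat.le_add_left 3 k) 1 : Fin (k + 3)) = 1 := by
  ext
  simp

theorem castLE_two' (k : ℕ) : (Fin.castLE (Nat.le_add_left 3 k) 2 : Fin (k + 3)) = 2 := by
  ext
  rw [Fin.val_castLE]
  change 2 = 2 % (k + 3)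
  rw [Nat.mod_eq_of_lt (by omega)]

/-- The new points. -/
def newR {k : ℕ} (R : Fin (k + 3) → Subalgebra ℂ L) (R' : Fin 3 → Subalgebra ℂ L) :
    Fin (k + 3) → Subalgebra ℂ L := fun i => if h : (i : ℕ) < 3 then R' ⟨i, h⟩ else R i

theorem newR_lt {k : ℕ} (R : Fin (k + 3) → Subalgebra ℂ L) (R' : Fin 3 → Subalgebra ℂ L)
    (i : Fin 3) : newR R R' (Fin.castLE (Nat.le_add_left 3 k) i) = R' i := by
  unfold newR
  rw [dif_pos (by rw [Fin.val_castLE]; exact i.2)]
  congr 1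

theorem newR_ge {k : ℕ} (R : Fin (k + 3) → Subalgebra ℂ L) (R' : Fin 3 → Subalgebra ℂ L)
    (i : Fin (k + 3)) (h : 3 ≤ (i : ℕ)) : newR R R' i = R i := by
  unfold newR
  rw [dif_neg (by omega)]

theorem surf_new_le {k : ℕ} (S' : Coord L) (R : Fin (k + 3) → Subalgebra ℂ L)
    (R' : Fin 3 → Subalgebra ℂ L) (j : ℕ) (hj : j ≤ 3) :
    surf S' (newR R R') j = surf S' R' j := by
  apply surf_congr S' (newR R R') R' j (by omega) hj
  intro i h1 h2 _
  unfold newR
  rw [dif_pos (show ((⟨i, h1⟩ : Fin (k + 3)) : ℕ) < 3 from h2)]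

theorem surf_fst3 {k : ℕ} (S : Coord L) (R : Fin (k + 3) → Subalgebra ℂ L) (j : ℕ) (hj : j ≤ 3) :
    surf S R j = surf S (fst3 R) j := by
  apply surf_congr S R (fst3 R) j (by omega) hj
  intro i h1 h2 _
  rfl

theorem surf_new_ge {k : ℕ} (S S' : Coord L) (R : Fin (k + 3) → Subalgebra ℂ L)
    (R' : Fin 3 → Subalgebra ℂ L) (h3 : surf S' R' 3 = surf S (fst3 R) 3) (j : ℕ) (hj : 3 ≤ j) :
    surf S' (newR R R') j = surf S R j := by
  induction j, hj using Nat.le_induction with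
  | base => rw [surf_new_le S' R R' 3 le_rfl, h3, surf_fst3 S R 3 le_rfl]
  | succ j hj ih =>
    simp only [surf]
    split_ifs with h
    · rw [ih, newR_ge R R' ⟨j, h⟩ hj]
    · exact ih

/-- Curves of the surface with all points that are not curves of the surface with three
points. -/
theorem late (h17 : ST_A17) (h18 : ST_A18) {k : ℕ} (T : PStr L (k + 3)) {v : DVal L}
    (hv : T.Cur v) (hn : ¬ ∃ R0 ∈ surf T.S (fst3 T.R) 3, Through R0 v) :
    ∃ i : Fin (k + 3), 3 ≤ (i : ℕ) ∧ IsOrd (T.R i) v ∧ deg T.S v = 0 ∧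
      ∀ j, j < i → mul (T.R j) v = 0 := by
  have h3 : (T.trunc 3 (Nat.le_add_left 3 k)).X = surf T.S (fst3 T.R) 3 := rfl
  have hn' : ¬ (T.trunc 3 (Nat.le_add_left 3 k)).Cur v := by
    rintro ⟨R0, hR0, hT⟩
    exact hn ⟨R0, hR0, hT⟩
  rw [h17 L 3] at hn'
  push Not at hn'
  obtain ⟨hn1, hn2⟩ := hn'
  rcases (h17 L _ T v).1 hv with h | ⟨i, hi⟩
  · exact absurd h hn1
  · have hi3 : 3 ≤ (i : ℕ) := by
      by_contra hcon
      exact hn2 ⟨i, by omega⟩ hi
    obtain ⟨-, h2, h4, h5, -⟩ := h18 L _ T i v hi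
    refine ⟨i, hi3, hi, h2, fun j hj => ?_⟩
    apply mul_zero_of
    · intro hh
      have := h4 j hh
      subst this
      exact lt_irrefl _ hj
    · exact h5 j hj

theorem quad_zero {k : ℕ} (c : Cl ℤ (Fin (k + 3))) (h0 : c.1 = 0) (h1 : c.2 0 = 0)
    (h2 : c.2 1 = 0) (h3 : c.2 2 = 0) : quad c = c := by
  unfold quad
  refine Prod.ext ?_ (funext fun i => ?_)
  · dsimp only
    rw [h0, h1, h2, h3]
    norm_num
  · dsimp only
    split_ifs with e1 e2 e3
    · rw [h0, h2, h3, e1, h1]; norm_num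
    · rw [h0, h1, h3, e2, h2]; norm_num
    · rw [h0, h1, h2, e3, h3]; norm_num
    · rfl

/-- The quadratic transformation of a structure, with explicit first three points. -/
theorem qs_core (h17 : ST_A17) (h18 : ST_A18) {k : ℕ} (T : PStr L (k + 3)) (S' : Coord L)
    (R' : Fin 3 → Subalgebra ℂ L) (hQ : QuadPair T.S S' (fst3 T.R) R') :
    ∃ T' : PStr L (k + 3), T'.S = S' ∧ T'.X = T.X ∧
      (∀ v, T.Cur v → T'.cl v = quad (T.cl v)) ∧ fst3 T'.R = R' ∧
      ∀ i : Fin (k + 3), 3 ≤ (i : ℕ) → T'.R i = T.R i := by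
  obtain ⟨hv1, hs, hq⟩ := hQ
  have hvalid : ∀ i : Fin (k + 3), newR T.R R' i ∈ surf S' (newR T.R R') i := by
    intro i
    by_cases hi : (i : ℕ) < 3
    · have h1 := hv1 ⟨i, hi⟩
      have h2 : newR T.R R' i = R' ⟨i, hi⟩ := by
        unfold newR
        rw [dif_pos hi]
      rw [h2, surf_new_le S' T.R R' i (by omega)]
      exact h1
    · rw [newR_ge T.R R' i (by omega), surf_new_ge T.S S' T.R R' hs i (by omega)]
      exact T.valid i
  let T' : PStr L (k + 3) := ⟨S', newR T.R R', hvalid⟩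
  have hX : T'.X = T.X := surf_new_ge T.S S' T.R R' hs (k + 3) (by omega)
  have hCur : ∀ v, T'.Cur v ↔ T.Cur v := by
    intro v
    unfold PStr.Cur
    rw [hX]
  have hf : fst3 T'.R = R' := funext fun i => newR_lt T.R R' i
  have hg : ∀ i : Fin (k + 3), 3 ≤ (i : ℕ) → T'.R i = T.R i := fun i hi => newR_ge T.R R' i hi
  refine ⟨T', rfl, hX, fun v hv => ?_, hf, hg⟩
  have e0 : T'.R 0 = R' 0 := congrFun hf 0
  have e1 : T'.R 1 = R' 1 := by rw [← castLE_one']; exact congrFun hf 1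
  have e2 : T'.R 2 = R' 2 := by rw [← castLE_two']; exact congrFun hf 2
  have f0 : T.R 0 = fst3 T.R 0 := rfl
  have f1 : T.R 1 = fst3 T.R 1 := by rw [← castLE_one']; rfl
  have f2 : T.R 2 = fst3 T.R 2 := by rw [← castLE_two']; rfl
  by_cases hc : ∃ R0 ∈ surf T.S (fst3 T.R) 3, Through R0 v
  · obtain ⟨a1, a2, a3, a4⟩ := hq v hc
    unfold PStr.cl quad
    refine Prod.ext ?_ (funext fun i => ?_)
    · dsimp only
      rw [f0, f1, f2]
      exact a1
    · dsimp only
      rw [f0, f1, f2]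
      split_ifs with c1 c2 c3
      · rw [c1, e0]; exact a2
      · rw [c2, e1]; exact a3
      · rw [c3, e2]; exact a4
      · rw [hg i]
        by_contra hcon
        have h5 : (i : ℕ) = 0 ∨ (i : ℕ) = 1 ∨ (i : ℕ) = 2 := by omega
        rcases h5 with h5 | h5 | h5
        · exact c1 (Fin.ext (by rw [h5]; rfl))
        · exact c2 (Fin.ext (by rw [h5, ← castLE_one']; rfl))
        · exact c3 (Fin.ext (by rw [h5, ← castLE_two']; rfl))
  · have hc' : ¬ ∃ R0 ∈ surf T'.S (fst3 T'.R) 3, Through R0 v := by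
      have h6 : surf T'.S (fst3 T'.R) 3 = surf T.S (fst3 T.R) 3 := by
        rw [hf]
        exact hs
      rw [h6]
      exact hc
    obtain ⟨i, hi3, hio, hd, hm⟩ := late h17 h18 T hv hc
    obtain ⟨i', hi3', hio', hd', hm'⟩ := late h17 h18 T' ((hCur v).2 hv) hc'
    have l0 : ∀ i : Fin (k + 3), 3 ≤ (i : ℕ) → (0 : Fin (k + 3)) < i := by
      intro i hi
      rw [Fin.lt_def]
      change 0 < (i : ℕ)
      omega
    have l1 : ∀ i : Fin (k + 3), 3 ≤ (i : ℕ) → (1 : Fin (k + 3)) < i := by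
      intro i hi
      rw [Fin.lt_def, ← castLE_one', Fin.val_castLE]
      change 1 < (i : ℕ)
      omega
    have l2 : ∀ i : Fin (k + 3), 3 ≤ (i : ℕ) → (2 : Fin (k + 3)) < i := by
      intro i hi
      rw [Fin.lt_def, ← castLE_two', Fin.val_castLE]
      change 2 < (i : ℕ)
      omega
    rw [quad_zero (T.cl v) hd (hm 0 (l0 i hi3)) (hm 1 (l1 i hi3)) (hm 2 (l2 i hi3))]
    refine Prod.ext ?_ (funext fun j => ?_)
    · change deg T'.S v = deg T.S v
      rw [hd, hd']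
    · change mul (T'.R j) v = mul (T.R j) v
      by_cases hj : 3 ≤ (j : ℕ)
      · rw [hg j hj]
      · have hji : j < i := by rw [Fin.lt_def]; omega
        have hji' : j < i' := by rw [Fin.lt_def]; omega
        rw [hm j hji, hm' j hji']

end

end H84

/-- Row QS. -/
theorem qs_main (h17 : ST_A17) (h18 : ST_A18) (hA : ST_QA) (hB : ST_QB) (hC : ST_QC) : ST_QS := by
  intro L _ _ k T S' h
  rcases h with h | h | h
  · obtain ⟨R', -, hQ⟩ := hA L _ _ _ h
    obtain ⟨T', h1, h2, h3, -, -⟩ := H84.qs_core h17 h18 T S' R' hQ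
    exact ⟨T', h1, h2, h3⟩
  · obtain ⟨R', -, hQ⟩ := hB L _ _ _ h
    obtain ⟨T', h1, h2, h3, -, -⟩ := H84.qs_core h17 h18 T S' R' hQ
    exact ⟨T', h1, h2, h3⟩
  · obtain ⟨R', -, hQ⟩ := hC L _ _ _ h
    obtain ⟨T', h1, h2, h3, -, -⟩ := H84.qs_core h17 h18 T S' R' hQ
    exact ⟨T', h1, h2, h3⟩

end LCY
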