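import Pool.Agent.Helper26.LC.FamStmts2

/-!
Row PLACE of MP_f7e214_ag: every irreducible polynomial in two variables has a place.
-/

open Polynomial

namespace LCY

namespace PLC

noncomputable section

variable {L : Type} [Field L] [Algebra ℂ L]

lemma fin_mult {f g : ℂ[X][X]} (hf : Irreducible f) (hg : g ≠ 0) : FiniteMultiplicity f g :=
  FiniteMultiplicity.of_not_isUnit hf.not_isUnit hg

/-- The order along `f`. -/
def mu (f g : ℂ[X][X]) : ℤ := (multiplicity f g : ℤ)

lemma mu_mul {f g h : ℂ[X][X]} (hf : Irreducible f) (hg : g ≠ 0) (hh : h ≠ 0) :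
    mu f (g * h) = mu f g + mu f h := by
  unfold mu
  rw [multiplicity_mul hf.prime (fin_mult hf (mul_ne_zero hg hh))]
  push_cast
  rfl

lemma mu_add {f g h : ℂ[X][X]} (hf : Irreducible f) (hgh : g + h ≠ 0) :
    min (mu f g) (mu f h) ≤ mu f (g + h) := by
  unfold mu
  have h1 : min (multiplicity f g) (multiplicity f h) ≤ multiplicity f (g + h) := by
    apply (fin_mult hf hgh).le_multiplicity_of_pow_dvd
    apply dvd_add
    · exact pow_dvd_of_le_multiplicity (min_le_left _ _)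
    · exact pow_dvd_of_le_multiplicity (min_le_right _ _)
  exact_mod_cast h1

variable (Q : Coord L)

/-- The order along `f` of an element of `L`. -/
def vf (f : ℂ[X][X]) (z : L) : ℤ :=
  mu f (Q.surj z).choose - mu f (Q.surj z).choose_spec.choose

lemma mu_indep {f : ℂ[X][X]} (hf : Irreducible f) {z : L} (hz : z ≠ 0) {g h g' h' : ℂ[X][X]}
    (hg : g ≠ 0) (hh : h ≠ 0) (he : z = ev Q.x Q.y g / ev Q.x Q.y h) (hh' : h' ≠ 0)
    (he' : z = ev Q.x Q.y g' / ev Q.x Q.y h') : mu f g' - mu f h' = mu f g - mu f h := by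
  have hg' : g' ≠ 0 := by
    intro h0
    rw [h0, map_zero, zero_div] at he'
    exact hz he'
  have h1 : g' * h = g * h' := by
    have h2 : ev Q.x Q.y (g' * h - g * h') = 0 := by
      rw [map_sub, map_mul, map_mul, sub_eq_zero]
      have h3 := Q.ne hh
      have h4 := Q.ne hh'
      rw [he'] at he
      rw [div_eq_div_iff h4 h3] at he
      exact he
    exact sub_eq_zero.1 (Q.inj _ h2)
  have h2 := congrArg (mu f) h1
  rw [mu_mul hf hg' hh, mu_mul hf hg hh'] at h2
  omega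

lemma vf_eq {f : ℂ[X][X]} (hf : Irreducible f) {z : L} (hz : z ≠ 0) {g h : ℂ[X][X]} (hg : g ≠ 0)
    (hh : h ≠ 0) (he : z = ev Q.x Q.y g / ev Q.x Q.y h) : vf Q f z = mu f g - mu f h :=
  mu_indep Q hf hz hg hh he (Q.surj z).choose_spec.choose_spec.1
    (Q.surj z).choose_spec.choose_spec.2

lemma exists_rep (z : L) (hz : z ≠ 0) : ∃ g h : ℂ[X][X], g ≠ 0 ∧ h ≠ 0 ∧
    z = ev Q.x Q.y g / ev Q.x Q.y h := by
  obtain ⟨g, h, hh, he⟩ := Q.surj z
  refine ⟨g, h, ?_, hh, he⟩
  intro h0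
  rw [h0, map_zero, zero_div] at he
  exact hz he

lemma vf_ev {f : ℂ[X][X]} (hf : Irreducible f) {g : ℂ[X][X]} (hg : g ≠ 0) :
    vf Q f (ev Q.x Q.y g) = mu f g := by
  rw [vf_eq Q hf (Q.ne hg) hg one_ne_zero (by rw [map_one, div_one])]
  have : mu f 1 = 0 := by
    unfold mu
    rw [multiplicity_eq_zero.2]
    · rfl
    · intro h
      exact hf.not_isUnit (isUnit_of_dvd_one h)
  rw [this, sub_zero]

lemma mu_eq_zero {f g : ℂ[X][X]} (h : ¬ f ∣ g) : mu f g = 0 := by
  unfold mu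
  rw [multiplicity_eq_zero.2 h]
  rfl

lemma exists_res {f : ℂ[X][X]} (hf : Irreducible f) : ∃ t, ResTr (vf Q f) t := by
  by_cases hA : ∀ P : ℂ[X], P ≠ 0 → ¬ f ∣ C P
  · refine ⟨Q.x, fun P hP => ?_⟩
    have h1 : aeval Q.x P = ev Q.x Q.y (C P) := (ev_C _ _ _).symm
    have h2 : (C P : ℂ[X][X]) ≠ 0 := C_ne_zero.2 hP
    rw [h1]
    exact ⟨Q.ne h2, by rw [vf_ev Q hf h2, mu_eq_zero (hA P hP)]⟩
  · push Not at hA
    obtain ⟨P0, hP0, hdvd⟩ := hA
    have hd : f.natDegree = 0 := by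
      have := natDegree_le_of_dvd hdvd (C_ne_zero.2 hP0)
      rw [natDegree_C] at this
      omega
    obtain ⟨p, hp⟩ := natDegree_eq_zero.1 hd
    refine ⟨Q.y, fun P hP => ?_⟩
    have h1 : aeval Q.y P = ev Q.x Q.y (P.map C) := by
      rw [ev_apply, eval₂_map, aeval_def]
      congr 1
      ext c
      change algebraMap ℂ L c = aeval Q.x (C c)
      rw [aeval_C]
    have h2 : (P.map C : ℂ[X][X]) ≠ 0 := (Polynomial.map_ne_zero_iff C_injective).2 hP
    have h3 : ¬ f ∣ P.map C := by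
      intro h4
      rw [← hp] at h4
      have h5 := (C_dvd_iff_dvd_coeff p (P.map C)).1 h4 P.natDegree
      rw [coeff_map] at h5
      have h6 : IsUnit p := by
        apply isUnit_of_dvd_unit h5
        rw [isUnit_C]
        exact (isUnit_iff_ne_zero).2 (leadingCoeff_ne_zero.2 hP)
      apply hf.not_isUnit
      rw [← hp]
      exact isUnit_C.2 h6
    rw [h1]
    exact ⟨Q.ne h2, by rw [vf_ev Q hf h2, mu_eq_zero h3]⟩

/-- The place of an irreducible polynomial. -/
def place {f : ℂ[X][X]} (hf : Irreducible f) : DVal L where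
  v := vf Q f
  map_mul := by
    intro a b ha hb
    obtain ⟨g, h, hg, hh, rfl⟩ := exists_rep Q a ha
    obtain ⟨g', h', hg', hh', rfl⟩ := exists_rep Q b hb
    rw [vf_eq Q hf ha hg hh rfl, vf_eq Q hf hb hg' hh' rfl,
      vf_eq Q hf (mul_ne_zero ha hb) (mul_ne_zero hg hg') (mul_ne_zero hh hh')
        (by rw [_root_.map_mul, _root_.map_mul, div_mul_div_comm]), mu_mul hf hg hg',
      mu_mul hf hh hh']
    ring
  map_add := by
    intro a b ha hb hab
    obtain ⟨g, h, hg, hh, rfl⟩ := exists_rep Q a ha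
    obtain ⟨g', h', hg', hh', rfl⟩ := exists_rep Q b hb
    have e1 := Q.ne hh
    have e2 := Q.ne hh'
    have he : ev Q.x Q.y g / ev Q.x Q.y h + ev Q.x Q.y g' / ev Q.x Q.y h' =
        ev Q.x Q.y (g * h' + h * g') / ev Q.x Q.y (h * h') := by
      rw [_root_.map_add, _root_.map_mul, _root_.map_mul, _root_.map_mul, div_add_div _ _ e1 e2]
    have hne : g * h' + h * g' ≠ 0 := by
      intro h0
      rw [h0, map_zero, zero_div] at he
      exact hab he
    rw [vf_eq Q hf ha hg hh rfl, vf_eq Q hf hb hg' hh' rfl,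
      vf_eq Q hf hab hne (mul_ne_zero hh hh') he, mu_mul hf hh hh']
    have h1 := mu_add hf hne
    rw [mu_mul hf hg hh', mu_mul hf hh hg'] at h1
    rcases min_le_iff.1 h1 with h2 | h2
    · rw [min_le_iff]; left; linarith
    · rw [min_le_iff]; right; linarith
  map_const := by
    intro c hc
    rw [← ev_CC Q.x Q.y c, vf_ev Q hf (C_ne_zero.2 (C_ne_zero.2 hc))]
    apply mu_eq_zero
    intro h
    apply hf.not_isUnit
    exact isUnit_of_dvd_unit h (isUnit_C.2 (isUnit_C.2 (isUnit_iff_ne_zero.2 hc)))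
  exists_unif := by
    refine ⟨ev Q.x Q.y f, Q.ne hf.ne_zero, ?_⟩
    rw [vf_ev Q hf hf.ne_zero]
    unfold mu
    rw [multiplicity_self]
    rfl
  exists_res := exists_res Q hf

end

end PLC

theorem place_main : ST_PLACE := by
  intro L _ _ Q f hf
  have h1 : (PLC.place Q hf).v (ev Q.x Q.y f) = 1 := by
    change PLC.vf Q f (ev Q.x Q.y f) = 1
    rw [PLC.vf_ev Q hf hf.ne_zero]
    unfold PLC.mu
    rw [multiplicity_self]
    rfl
  refine ⟨PLC.place Q hf, ⟨by omega, fun g hg => ?_⟩, h1⟩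
  have hg0 : g ≠ 0 := fun h0 => hg (h0 ▸ dvd_zero f)
  change PLC.vf Q f (ev Q.x Q.y g) = 0
  rw [PLC.vf_ev Q hf hg0, PLC.mu_eq_zero hg]

end LCY
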