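import Pool.Agent.Helper84.LCY.G0g
import Pool.Agent.Helper97.LCY.Sep
import Pool.Agent.Helper69.LCY.MinDeg

/-!
Block GENUS0 of MP_f7e214_ag: a finitely generated field of transcendence degree one over the
complex numbers is rational or has a nonzero everywhere regular differential.
-/

open Polynomial IntermediateField Module

namespace LCY

namespace G0

theorem genus0_of (hMD : ST_MINDEG) : ST_GENUS0 := by
  intro E _ _ hfg htr
  obtain ⟨s, hs, hfd, hpos, hmin⟩ := H97.exists_min hfg htr
  by_cases hn : finrank (IntermediateField.adjoin ℂ {s}) E = 1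
  · left
    exact ⟨s, H97.adjoin_eq_top_of_finrank_eq_one hn⟩
  · right
    obtain ⟨φ, hφ⟩ := regDiff_of_min hMD hs hfd hmin (by omega)
    exact ⟨φ, s, hφ⟩

theorem minDegAll : ST_MINDEG := by
  intro E _ _ s b hs hfd h0 h1 hb
  obtain ⟨f, hf, -, hlt⟩ := minDeg' s b hs h0 (by rwa [mul_comm] at h1) hb
  exact ⟨f, hf, hlt⟩

end G0

/-- GENUS0. -/
theorem genus0 : ST_GENUS0 := G0.genus0_of G0.minDegAll

end LCY
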