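import Mathlib

/-!
MP_f7e214_ag, row ADE, field `val`: valuations with value infinity on the five types of
equations of the Du Val singularities.
-/

namespace LCY

namespace H84

/-- The hypotheses on the valuation `vh` and the three elements. -/
structure VH {Q : Type} [CommRing Q] (x y z gy gz : Q) (vh : Q → ℕ∞) : Prop where
  hm : ∀ a b, vh (a * b) = vh a + vh b
  ha : ∀ a b, min (vh a) (vh b) ≤ vh (a + b)
  hN : ∀ n : ℕ, n ≠ 0 → vh (n : Q) = 0
  hx : 1 ≤ vh x
  hy : 1 ≤ vh y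
  hz : 1 ≤ vh z
  h1 : vh y + vh z ≤ vh x
  h2 : vh z + vh x ≤ vh gy
  h3 : vh x + vh y ≤ vh gz

namespace VH

variable {Q : Type} [CommRing Q] {x y z gy gz : Q} {vh : Q → ℕ∞}

theorem pow (h : VH x y z gy gz vh) (a : Q) (n : ℕ) : vh (a ^ n) = n * vh a := by
  induction n with
  | zero =>
    have := h.hN 1 one_ne_zero
    rw [Nat.cast_one] at this
    rw [pow_zero, this, Nat.cast_zero, zero_mul]
  | succ n ih => rw [pow_succ, h.hm, ih, Nat.cast_succ, add_mul, one_mul]

theorem neg_one (h : VH x y z gy gz vh) : vh (-1 : Q) = 0 := by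
  have h1 : vh ((-1 : Q) * (-1)) = 0 := by
    have := h.hN 1 one_ne_zero
    rw [Nat.cast_one] at this
    rw [neg_one_mul, neg_neg, this]
  rw [h.hm] at h1
  exact (add_eq_zero.1 h1).1

theorem neg (h : VH x y z gy gz vh) (a : Q) : vh (-a) = vh a := by
  rw [← neg_one_mul, h.hm, h.neg_one, zero_add]

theorem nat_mul (h : VH x y z gy gz vh) {n : ℕ} (hn : n ≠ 0) (a : Q) : vh ((n : Q) * a) = vh a := by
  rw [h.hm, h.hN n hn, zero_add]

/-- If a sum and one summand have value infinity, so has the other. -/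
theorem top_of (h : VH x y z gy gz vh) {a b : Q} (h1 : vh (a + b) = ⊤) (h2 : vh a = ⊤) :
    vh b = ⊤ := by
  have h3 := h.ha (a + b) (-a)
  rw [h.neg, h1, h2, min_self] at h3
  have h4 : a + b + -a = b := by ring
  rw [h4] at h3
  exact top_le_iff.1 h3

theorem top_pow (h : VH x y z gy gz vh) {a : Q} {n : ℕ} (h1 : vh (a ^ n) = ⊤) : vh a = ⊤ := by
  rw [h.pow] at h1
  by_contra h2
  obtain ⟨m, hm⟩ := ENat.ne_top_iff_exists.1 h2
  rw [← hm] at h1
  exact ENat.natCast_ne_top (n * m) (by rw [← h1]; push_cast; rfl)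

theorem pow_top (h : VH x y z gy gz vh) {a : Q} {n : ℕ} (hn : n ≠ 0) (h1 : vh a = ⊤) :
    vh (a ^ n) = ⊤ := by
  rw [h.pow, h1, ENat.mul_top]
  simpa using hn

theorem zero (h : VH x y z gy gz vh) : vh (0 : Q) = ⊤ := by
  by_contra h2
  obtain ⟨m, hm⟩ := ENat.ne_top_iff_exists.1 h2
  have h3 := h.hm 0 x
  rw [zero_mul, ← hm] at h3
  have h4 := h.hx
  generalize vh x = a at h3 h4
  cases a using ENat.recTopCoe with
  | top => exact ENat.natCast_ne_top m (by rw [h3]; simp)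
  | coe a =>
    norm_cast at h3 h4
    omega

end VH

variable {Q : Type} [CommRing Q] {x y z gy gz : Q} {vh : Q → ℕ∞}

/-- Type A. -/
theorem valA {n : ℕ} (h : VH x y z (2 * y) (((n + 1 : ℕ) : Q) * z ^ n) vh)
    (hr : x ^ 2 + (y ^ 2 + z ^ (n + 1)) = 0) : vh x = ⊤ ∧ vh y = ⊤ ∧ vh z = ⊤ := by
  have e1 : vh (2 * y) = vh y := by
    have := h.nat_mul two_ne_zero y
    rwa [Nat.cast_ofNat] at this
  have h1 := h.h1
  have h2 := h.h2
  rw [e1] at h2
  have hz := h.hz
  have key : ∀ a b c : ℕ∞, 1 ≤ c → b + c ≤ a → c + a ≤ b → b = ⊤ ∧ a = ⊤ := by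
    intro a b c hc h1 h2
    have hb : b = ⊤ := by
      by_contra hb
      obtain ⟨b', rfl⟩ := ENat.ne_top_iff_exists.1 hb
      cases a using ENat.recTopCoe with
      | top => exact absurd (top_le_iff.1 (by simpa using h2)) hb
      | coe a =>
        cases c using ENat.recTopCoe with
        | top => exact absurd (top_le_iff.1 (by simpa using h2)) hb
        | coe c =>
          norm_cast at h1 h2 hc
          omega
    subst hb
    exact ⟨rfl, top_le_iff.1 (by simpa using h1)⟩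
  obtain ⟨hb, ha⟩ := key _ _ _ hz h1 h2
  refine ⟨ha, hb, h.top_pow (n := n + 1) ?_⟩
  refine h.top_of (a := y ^ 2) ?_ (h.pow_top two_ne_zero hb)
  refine h.top_of (a := x ^ 2) ?_ (h.pow_top two_ne_zero ha)
  rw [hr, h.zero]

/-- Type D. -/
theorem valD {n : ℕ} (hn : 4 ≤ n)
    (h : VH x y z (2 * y * z) (y ^ 2 + ((n - 1 : ℕ) : Q) * z ^ (n - 2)) vh)
    (hr : x ^ 2 + (y ^ 2 * z + z ^ (n - 1)) = 0) : vh x = ⊤ ∧ vh y = ⊤ ∧ vh z = ⊤ := by
  have e1 : vh (2 * y * z) = vh y + vh z := by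
    have := h.nat_mul two_ne_zero (y * z)
    rwa [Nat.cast_ofNat, h.hm y z, ← mul_assoc] at this
  have h1 := h.h1
  have h2 := h.h2
  rw [e1] at h2
  have hz := h.hz
  have key : ∀ a b c : ℕ∞, 1 ≤ c → c ≠ ⊤ → b + c ≤ a → c + a ≤ b + c → b = ⊤ ∧ a = ⊤ := by
    intro a b c hc hc' h1 h2
    obtain ⟨c', rfl⟩ := ENat.ne_top_iff_exists.1 hc'
    cases a using ENat.recTopCoe with
    | top =>
      cases b using ENat.recTopCoe with
      | top => exact ⟨rfl, rfl⟩
      | coe b =>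
        exfalso
        rw [add_top] at h2
        have := top_le_iff.1 h2
        norm_cast at this
    | coe a =>
      cases b using ENat.recTopCoe with
      | top =>
        exfalso
        rw [top_add] at h1
        exact ENat.natCast_ne_top _ (top_le_iff.1 h1)
      | coe b =>
        norm_cast at h1 h2 hc
        omega
  have hc : vh z = ⊤ := by
    by_contra hc
    obtain ⟨hb, ha⟩ := key _ _ _ hz hc h1 h2
    apply hc
    refine h.top_pow (n := n - 1) ?_
    refine h.top_of (a := y ^ 2 * z) ?_ (by rw [h.hm, h.pow_top two_ne_zero hb, top_add])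
    refine h.top_of (a := x ^ 2) ?_ (h.pow_top two_ne_zero ha)
    rw [hr, h.zero]
  have ha : vh x = ⊤ := by
    rw [hc, add_top] at h1
    exact top_le_iff.1 h1
  refine ⟨ha, h.top_pow (n := 2) ?_, hc⟩
  refine h.top_of (a := ((n - 1 : ℕ) : Q) * z ^ (n - 2)) ?_ ?_
  · rw [add_comm]
    have h3 := h.h3
    rw [ha, top_add] at h3
    exact top_le_iff.1 h3
  · rw [h.nat_mul (by omega), h.pow_top (by omega) hc]

/-- The arithmetic of the types E6 and E8. -/
theorem keyE {a b c : ℕ∞} {m : ℕ} (hm : m = 3 ∨ m = 4) (hc : 1 ≤ c) (h1 : b + c ≤ a)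
    (h2 : c + a ≤ (2 : ℕ) * b) (h3 : a + b ≤ (m : ℕ) * c) : a = ⊤ ∧ b = ⊤ ∧ c = ⊤ := by
  have hb : b = ⊤ := by
    by_contra hb
    obtain ⟨b', rfl⟩ := ENat.ne_top_iff_exists.1 hb
    have hf : ((2 : ℕ) : ℕ∞) * (b' : ℕ∞) ≠ ⊤ := by
      rw [← Nat.cast_mul]
      exact ENat.natCast_ne_top _
    cases a using ENat.recTopCoe with
    | top => exact hf (top_le_iff.1 (by simpa using h2))
    | coe a =>
      cases c using ENat.recTopCoe with
      | top => exact hf (top_le_iff.1 (by simpa using h2))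
      | coe c =>
        rcases hm with rfl | rfl
        · norm_cast at h1 h2 h3 hc
          omega
        · norm_cast at h1 h2 h3 hc
          omega
  subst hb
  have ha : a = ⊤ := top_le_iff.1 (by simpa using h1)
  subst ha
  refine ⟨rfl, rfl, ?_⟩
  by_contra hc'
  obtain ⟨c', rfl⟩ := ENat.ne_top_iff_exists.1 hc'
  rw [top_add] at h3
  refine ENat.natCast_ne_top (m * c') (top_le_iff.1 ?_)
  push_cast
  exact h3

/-- Type E6. -/
theorem valE6 (h : VH x y z (3 * y ^ 2) (4 * z ^ 3) vh) : vh x = ⊤ ∧ vh y = ⊤ ∧ vh z = ⊤ := by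
  have e1 : vh (3 * y ^ 2) = (2 : ℕ) * vh y := by
    have := h.nat_mul three_ne_zero (y ^ 2)
    rwa [Nat.cast_ofNat, h.pow y 2] at this
  have e2 : vh (4 * z ^ 3) = (3 : ℕ) * vh z := by
    have := h.nat_mul four_ne_zero (z ^ 3)
    rwa [Nat.cast_ofNat, h.pow z 3] at this
  exact keyE (Or.inl rfl) h.hz h.h1 (e1 ▸ h.h2) (e2 ▸ h.h3)

/-- Type E8. -/
theorem valE8 (h : VH x y z (3 * y ^ 2) (5 * z ^ 4) vh) : vh x = ⊤ ∧ vh y = ⊤ ∧ vh z = ⊤ := by
  have e1 : vh (3 * y ^ 2) = (2 : ℕ) * vh y := by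
    have := h.nat_mul three_ne_zero (y ^ 2)
    rwa [Nat.cast_ofNat, h.pow y 2] at this
  have e2 : vh (5 * z ^ 4) = (4 : ℕ) * vh z := by
    have := h.nat_mul (n := 5) (by norm_num) (z ^ 4)
    rwa [Nat.cast_ofNat, h.pow z 4] at this
  exact keyE (Or.inr rfl) h.hz h.h1 (e1 ▸ h.h2) (e2 ▸ h.h3)

/-- Type E7. -/
theorem valE7 (h : VH x y z (3 * y ^ 2 + z ^ 3) (3 * y * z ^ 2) vh) :
    vh x = ⊤ ∧ vh y = ⊤ ∧ vh z = ⊤ := by
  have e1 : vh (3 * y ^ 2) = (2 : ℕ) * vh y := by
    have := h.nat_mul three_ne_zero (y ^ 2)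
    rwa [Nat.cast_ofNat, h.pow y 2] at this
  have e2 : vh (3 * y * z ^ 2) = vh y + (2 : ℕ) * vh z := by
    have := h.nat_mul three_ne_zero (y * z ^ 2)
    rwa [Nat.cast_ofNat, h.hm y, h.pow z 2, ← mul_assoc] at this
  have h1 := h.h1
  have h2 := h.h2
  have h3 := h.h3
  rw [e2] at h3
  have hb : vh y = ⊤ := by
    by_contra hb
    by_cases hc : vh z = ⊤
    · have ha : vh x = ⊤ := by
        rw [hc, add_top] at h1
        exact top_le_iff.1 h1
      rw [hc, top_add] at h2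
      have h4 : vh (z ^ 3 + 3 * y ^ 2) = ⊤ := by
        rw [add_comm]
        exact top_le_iff.1 h2
      have h5 := h.top_of h4 (h.pow_top three_ne_zero hc)
      rw [e1, ← h.pow] at h5
      exact hb (h.top_pow h5)
    · -- all values are finite
      have h4 : vh (3 * y ^ 2 + z ^ 3) ≤ vh (3 * y ^ 2) ∨ vh (z ^ 3) ≤ vh (3 * y ^ 2) := by
        rcases le_or_gt (vh (3 * y ^ 2 + z ^ 3)) (vh (3 * y ^ 2)) with h5 | h5
        · exact Or.inl h5
        · right
          have h6 := h.ha (3 * y ^ 2 + z ^ 3) (-(z ^ 3))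
          rw [h.neg] at h6
          have h7 : 3 * y ^ 2 + z ^ 3 + -(z ^ 3) = 3 * y ^ 2 := by ring
          rw [h7] at h6
          rcases min_le_iff.1 h6 with h8 | h8
          · exact absurd h8 (not_le.2 h5)
          · exact h8
      rw [e1, h.pow] at h4
      have hz := h.hz
      obtain ⟨b, hb'⟩ := ENat.ne_top_iff_exists.1 hb
      obtain ⟨c, hc'⟩ := ENat.ne_top_iff_exists.1 hc
      rw [← hb', ← hc'] at h1 h3 h4
      rw [← hc'] at h2 hz
      generalize vh x = a at h1 h2 h3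
      generalize vh (3 * y ^ 2 + z ^ 3) = g at h2 h4
      cases a using ENat.recTopCoe with
      | top =>
        rw [top_add] at h3
        refine ENat.natCast_ne_top (b + 2 * c) (top_le_iff.1 ?_)
        push_cast
        exact h3
      | coe a =>
        rcases h4 with h4 | h4
        · have h5 := h2.trans h4
          norm_cast at h1 h3 h5 hz
          omega
        · norm_cast at h1 h3 h4 hz
          omega
  have ha : vh x = ⊤ := by
    rw [hb, top_add] at h1
    exact top_le_iff.1 h1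
  refine ⟨ha, hb, h.top_pow (n := 3) ?_⟩
  refine h.top_of (a := 3 * y ^ 2) ?_ ?_
  · rw [ha, add_top] at h2
    exact top_le_iff.1 h2
  · rw [e1, ← h.pow]
    exact h.pow_top two_ne_zero hb

end H84

end LCY
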