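import Pool.Agent.Helper11.LCY.Stmts
import Pool.Agent.Helper50.LCY.Div

/-!
Row C5 of the block SURF (MP_f7e214_ag): effectivity.
-/

open Polynomial

namespace LCY

/-- C5. -/
theorem c5_main (hB1 : ST_B1) (hB4 : ST_B4) (hC1 : ST_C1) : ST_C5 := by
  intro L _ _ k T c hc1 hc
  obtain ⟨D, hD, hcD⟩ := hB4 L k T c
  obtain ⟨hfin, h1⟩ := hC1 L k T D hD
  rw [hcD] at h1
  have h2 := h1 (by omega)
  have h3 : 0 < Module.finrank ℂ (T.H D) := by omega
  have := hfin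
  obtain ⟨h, hne⟩ := Module.finrank_pos_iff_exists_ne_zero.1 h3
  have hne' : (h : L) ≠ 0 := fun h0 => hne (Subtype.ext h0)
  obtain ⟨h4, h5⟩ := hB1 L k T (h : L) hne'
  refine ⟨fun v => v.v (h : L) + D v, H50.isDiv_add h4 hD, ?_, ?_⟩
  · intro v hv
    rcases h.2 v hv with h6 | h6
    · exact absurd h6 hne'
    · exact h6
  · rw [H50.clD_add h4 hD, h5, hcD, zero_add]

end LCY
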