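import Mathlib

/-!
Block GENUS0 for MP_f7e214_ag, part a: the polynomial ring `ℂ[θ]` inside the field `K = ℂ(θ)`.
-/

open Polynomial IntermediateField

namespace LCY

namespace G0

noncomputable section

variable {K : Type*} [Field K] [Algebra ℂ K]

/-- The element `θ` is a transcendental generator of the field `K` over the complex numbers. -/
structure Gen (θ : K) : Prop where
  tr : Transcendental ℂ θ
  top : IntermediateField.adjoin ℂ {θ} = ⊤

/-- The polynomial ring `ℂ[θ]`. -/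
abbrev Ag (θ : K) : Subalgebra ℂ K := Algebra.adjoin ℂ {θ}

/-- The element `θ` of `ℂ[θ]`. -/
def th (θ : K) : Ag θ := ⟨θ, Algebra.self_mem_adjoin_singleton ℂ θ⟩

@[simp] lemma th_coe (θ : K) : ((th θ : Ag θ) : K) = θ := rfl

lemma Gen.ne_zero {θ : K} (h : Gen θ) : θ ≠ 0 := by
  rintro rfl
  exact h.tr isAlgebraic_zero

lemma Gen.inv {θ : K} (h : Gen θ) : Gen θ⁻¹ := by
  refine ⟨?_, ?_⟩
  · intro hh
    exact h.tr (by simpa using hh.inv)
  · rw [eq_top_iff, ← h.top, IntermediateField.adjoin_le_iff, Set.singleton_subset_iff]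
    have := IntermediateField.mem_adjoin_simple_self ℂ θ⁻¹
    simpa using inv_mem this

lemma Gen.sub {θ : K} (h : Gen θ) (c : ℂ) : Gen (θ - algebraMap ℂ K c) := by
  refine ⟨?_, ?_⟩
  · intro hh
    exact h.tr (by simpa using hh.add (isAlgebraic_algebraMap (A := K) c))
  · rw [eq_top_iff, ← h.top, IntermediateField.adjoin_le_iff, Set.singleton_subset_iff]
    have h1 := IntermediateField.mem_adjoin_simple_self ℂ (θ - algebraMap ℂ K c)
    have h2 := (IntermediateField.adjoin ℂ {θ - algebraMap ℂ K c}).algebraMap_mem c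
    simpa using add_mem h1 h2

lemma mem_Ag_iff {θ x : K} : x ∈ Ag θ ↔ ∃ p : ℂ[X], aeval θ p = x := by
  rw [Ag, Algebra.adjoin_singleton_eq_range_aeval]
  rfl

lemma Ag_sub (θ : K) (c : ℂ) : Ag (θ - algebraMap ℂ K c) = Ag θ := by
  apply le_antisymm
  · rw [Ag, Algebra.adjoin_le_iff, Set.singleton_subset_iff]
    exact sub_mem (Algebra.self_mem_adjoin_singleton ℂ θ) ((Ag θ).algebraMap_mem c)
  · rw [Ag, Algebra.adjoin_le_iff, Set.singleton_subset_iff]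
    have h1 := Algebra.self_mem_adjoin_singleton ℂ (θ - algebraMap ℂ K c)
    have h2 := (Ag (θ - algebraMap ℂ K c)).algebraMap_mem c
    have h3 := add_mem h1 h2
    have h4 : θ - algebraMap ℂ K c + algebraMap ℂ K c = θ := by ring
    rw [h4] at h3
    exact h3

lemma Gen.pid {θ : K} (h : Gen θ) : IsPrincipalIdealRing (Ag θ) :=
  IsPrincipalIdealRing.of_surjective
    (Polynomial.algEquivOfTranscendental ℂ θ h.tr).toRingEquiv.toRingHom
    (Polynomial.algEquivOfTranscendental ℂ θ h.tr).surjective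

lemma Gen.frac {θ : K} (h : Gen θ) : IsFractionRing (Ag θ) K := by
  refine IsFractionRing.of_field (Ag θ) K ?_
  intro z
  have hz : z ∈ IntermediateField.adjoin ℂ {θ} := by rw [h.top]; trivial
  obtain ⟨r, s, hrs⟩ := (IntermediateField.mem_adjoin_simple_iff ℂ z).1 hz
  exact ⟨⟨aeval θ r, mem_Ag_iff.2 ⟨r, rfl⟩⟩, ⟨aeval θ s, mem_Ag_iff.2 ⟨s, rfl⟩⟩, hrs⟩

/-- Evaluation of `ℂ[θ]` at `θ = 0`. -/
def ev0 {θ : K} (h : Gen θ) : Ag θ →ₐ[ℂ] ℂ :=
  (aeval (0 : ℂ)).comp ((Polynomial.algEquivOfTranscendental ℂ θ h.tr).symm : Ag θ →ₐ[ℂ] ℂ[X])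

lemma ev0_aeval {θ : K} (h : Gen θ) (p : ℂ[X]) :
    ev0 h (aeval (th θ) p) = p.eval 0 := by
  have h1 := algEquivOfTranscendental_symm_aeval (R := ℂ) θ h.tr p
  rw [ev0, AlgHom.comp_apply]
  change aeval (0 : ℂ) ((algEquivOfTranscendental ℂ θ h.tr).symm (aeval (th θ) p)) = _
  rw [show (th θ) = (⟨θ, Algebra.self_mem_adjoin_singleton ℂ θ⟩ : Ag θ) from rfl, h1]
  rw [Polynomial.coe_aeval_eq_eval]

lemma exists_aeval_th {θ : K} (a : Ag θ) : ∃ p : ℂ[X], a = aeval (th θ) p := by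
  obtain ⟨p, hp⟩ := mem_Ag_iff.1 a.2
  refine ⟨p, ?_⟩
  apply Subtype.ext
  rw [← hp]
  have := Polynomial.aeval_algHom_apply (Ag θ).val (th θ) p
  simpa using this.symm ▸ rfl

lemma ev0_th {θ : K} (h : Gen θ) : ev0 h (th θ) = 0 := by
  have := ev0_aeval h X
  simpa using this

lemma ev0_eq_zero {θ : K} (h : Gen θ) {a : Ag θ} (ha : ev0 h a = 0) : ∃ b, a = th θ * b := by
  obtain ⟨p, rfl⟩ := exists_aeval_th a
  rw [ev0_aeval] at ha
  have hd : (X : ℂ[X]) ∣ p := Polynomial.X_dvd_iff.2 (by rwa [Polynomial.coeff_zero_eq_eval_zero])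
  obtain ⟨q, rfl⟩ := hd
  exact ⟨aeval (th θ) q, by simp⟩

lemma exists_split {θ : K} (h : Gen θ) (a : Ag θ) :
    ∃ b, a = algebraMap ℂ (Ag θ) (ev0 h a) + th θ * b := by
  obtain ⟨b, hb⟩ := ev0_eq_zero h (a := a - algebraMap ℂ (Ag θ) (ev0 h a)) (by simp)
  exact ⟨b, by rw [← hb]; ring⟩

/-- An element of `ℂ[θ]` becomes an element of `ℂ[θ⁻¹]` after multiplication by a high power
of `θ⁻¹`. -/
lemma exists_pow_inv {θ : K} (h0 : θ ≠ 0) {a : K} (ha : a ∈ Ag θ) :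
    ∃ N : ℕ, ∀ M : ℕ, N ≤ M → (θ⁻¹) ^ M * a ∈ Ag θ⁻¹ := by
  have hself : θ⁻¹ ∈ Ag θ⁻¹ := Algebra.self_mem_adjoin_singleton ℂ θ⁻¹
  induction ha using Algebra.adjoin_induction with
  | mem x hx =>
    rw [Set.mem_singleton_iff] at hx
    subst hx
    refine ⟨1, fun M hM => ?_⟩
    obtain ⟨k, rfl⟩ : ∃ k, M = k + 1 := ⟨M - 1, by omega⟩
    have : (x⁻¹) ^ (k + 1) * x = (x⁻¹) ^ k := by
      rw [pow_succ, mul_assoc, inv_mul_cancel₀ h0, mul_one]
    rw [this]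
    exact pow_mem hself k
  | algebraMap c =>
    exact ⟨0, fun M _ => mul_mem (pow_mem hself M) ((Ag θ⁻¹).algebraMap_mem c)⟩
  | add x y _ _ hx hy =>
    obtain ⟨N1, h1⟩ := hx
    obtain ⟨N2, h2⟩ := hy
    refine ⟨max N1 N2, fun M hM => ?_⟩
    rw [mul_add]
    exact add_mem (h1 M (le_trans (le_max_left _ _) hM)) (h2 M (le_trans (le_max_right _ _) hM))
  | mul x y _ _ hx hy =>
    obtain ⟨N1, h1⟩ := hx
    obtain ⟨N2, h2⟩ := hy
    refine ⟨N1 + N2, fun M hM => ?_⟩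
    have h3 := mul_mem (h1 N1 le_rfl) (h2 (M - N1) (by omega))
    have h4 : (θ⁻¹) ^ N1 * x * ((θ⁻¹) ^ (M - N1) * y) = (θ⁻¹) ^ M * (x * y) := by
      have : M = N1 + (M - N1) := by omega
      conv_rhs => rw [this, pow_add]
      ring
    rwa [h4] at h3

/-- Elements of `ℂ[θ]` that lie in `ℂ[θ⁻¹]` are constant. -/
lemma mem_both {θ : K} (h : Gen θ) {a : K} (h1 : a ∈ Ag θ) (h2 : a ∈ Ag θ⁻¹) :
    ∃ c : ℂ, a = algebraMap ℂ K c := by
  obtain ⟨p, rfl⟩ := mem_Ag_iff.1 h1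
  obtain ⟨q, hq⟩ := mem_Ag_iff.1 h2
  have h0 := h.ne_zero
  have h3 : aeval θ (X ^ q.natDegree * p - q.reverse) = 0 := by
    let _ : Invertible (θ⁻¹) := invertibleOfNonzero (inv_ne_zero h0)
    have h4 := Polynomial.eval₂_reverse_mul_pow (algebraMap ℂ K) (θ⁻¹) q
    have h5 : (⅟(θ⁻¹) : K) = θ := by rw [invOf_eq_inv, inv_inv]
    rw [h5, ← Polynomial.aeval_def, ← Polynomial.aeval_def, hq] at h4
    rw [map_sub, map_mul, map_pow, aeval_X, ← h4, inv_pow]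
    have h6 : θ ^ q.natDegree ≠ 0 := pow_ne_zero _ h0
    field_simp
    ring
  have h4 : X ^ q.natDegree * p = q.reverse := by
    have := (transcendental_iff_injective.1 h.tr) (a₁ := X ^ q.natDegree * p) (a₂ := q.reverse)
      (by rw [map_sub, sub_eq_zero] at h3; exact h3)
    exact this
  by_cases hp : p = 0
  · exact ⟨0, by simp [hp]⟩
  have h5 := Polynomial.natDegree_mul (p := (X : ℂ[X]) ^ q.natDegree) (q := p)
    (pow_ne_zero _ X_ne_zero) hp
  have h6 := Polynomial.reverse_natDegree_le q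
  rw [h4, natDegree_X_pow] at h5
  have h7 : p.natDegree = 0 := by omega
  obtain ⟨c, hc⟩ := Polynomial.natDegree_eq_zero.1 h7
  exact ⟨c, by rw [← hc, aeval_C]⟩

/-- If `a` and `θ a` lie in `ℂ[θ]` and `ℂ[θ⁻¹]` respectively then `a = 0`. -/
lemma eq_zero_of_mul_mem {θ : K} (h : Gen θ) {a : K} (h1 : a ∈ Ag θ) (h2 : θ * a ∈ Ag θ⁻¹) :
    a = 0 := by
  have h3 : θ * a ∈ Ag θ := mul_mem (Algebra.self_mem_adjoin_singleton ℂ θ) h1
  obtain ⟨c, hc⟩ := mem_both h h3 h2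
  have h4 : th θ * ⟨a, h1⟩ = algebraMap ℂ (Ag θ) c := Subtype.ext (by simpa using hc)
  have h5 := congrArg (ev0 h) h4
  rw [map_mul, ev0_th, zero_mul, AlgHom.commutes] at h5
  have h6 : c = 0 := by simpa using h5.symm
  rw [h6, map_zero] at hc
  exact (mul_eq_zero.1 hc).resolve_left h.ne_zero

end

end G0

end LCY
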