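import Pool.Agent.Helper84.LCY.G0a

/-!
Block GENUS0, part b: the integral closures of `ℂ[θ]` and `ℂ[θ⁻¹]` in a finite extension `E` of
`K = ℂ(θ)`, and a simultaneous basis of both.
-/

open Polynomial IntermediateField Module

set_option linter.unusedSectionVars false

namespace LCY

namespace G0

noncomputable section

variable {K : Type*} [Field K] [Algebra ℂ K]
variable (E : Type*) [Field E] [Algebra ℂ E] [Algebra K E] [IsScalarTower ℂ K E]

/-- The integral closure of `ℂ[θ]` in `E`. -/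
abbrev Og (θ : K) : Subalgebra (Ag θ) E := integralClosure (Ag θ) E

variable {E}

lemma smul_mem_Og {θ : K} {a : K} {z : E} (ha : a ∈ Ag θ) (hz : z ∈ Og E θ) : a • z ∈ Og E θ := by
  have := (Og E θ).smul_mem hz (⟨a, ha⟩ : Ag θ)
  exact this

lemma algebraMap_mem_Og {θ : K} {a : K} (ha : a ∈ Ag θ) : algebraMap K E a ∈ Og E θ := by
  have := (Og E θ).algebraMap_mem (⟨a, ha⟩ : Ag θ)
  exact this

lemma const_mem_Og (θ : K) (c : ℂ) : algebraMap ℂ E c ∈ Og E θ := by
  rw [IsScalarTower.algebraMap_apply ℂ K E]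
  exact algebraMap_mem_Og ((Ag θ).algebraMap_mem c)

lemma csmul_mem_Og {θ : K} (c : ℂ) {z : E} (hz : z ∈ Og E θ) : c • z ∈ Og E θ := by
  rw [Algebra.smul_def]
  exact mul_mem (const_mem_Og θ c) hz

lemma th_mem (θ : K) : θ ∈ Ag θ := Algebra.self_mem_adjoin_singleton ℂ θ

/-- An element integral over `ℂ[θ]` becomes integral over `ℂ[θ⁻¹]` after multiplication by a
high power of `θ⁻¹`. -/
lemma exists_pow_inv_Og {θ : K} (h0 : θ ≠ 0) {z : E} (hz : z ∈ Og E θ) :
    ∃ N : ℕ, (θ⁻¹) ^ N • z ∈ Og E θ⁻¹ := by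
  obtain ⟨p, hpm, hp⟩ := hz
  have h1 : ∀ i, ∃ N : ℕ, ∀ M : ℕ, N ≤ M → (θ⁻¹) ^ M * (p.coeff i : K) ∈ Ag θ⁻¹ :=
    fun i => exists_pow_inv h0 (p.coeff i).2
  choose N hN using h1
  let N0 := (Finset.range (p.natDegree + 1)).sup N
  have hN0 : ∀ i, i ≤ p.natDegree → ∀ M, N0 ≤ M → (θ⁻¹) ^ M * (p.coeff i : K) ∈ Ag θ⁻¹ := by
    intro i hi M hM
    apply hN i M
    exact le_trans (Finset.le_sup (f := N) (Finset.mem_range.2 (by omega))) hM
  refine ⟨N0, ?_⟩
  let q : K[X] := p.map (algebraMap (Ag θ) K)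
  have hqm : q.Monic := hpm.map _
  have hqd : q.natDegree = p.natDegree := hpm.natDegree_map _
  let r : K[X] := q.scaleRoots ((θ⁻¹) ^ N0)
  have hrm : r.Monic := (monic_scaleRoots_iff _).2 hqm
  have hr : aeval ((θ⁻¹) ^ N0 • z) r = 0 := by
    rw [Algebra.smul_def]
    apply scaleRoots_aeval_eq_zero
    rw [aeval_map_algebraMap, aeval_def]
    exact hp
  have hl : r ∈ Polynomial.lifts (algebraMap (Ag θ⁻¹) K) := by
    rw [lifts_iff_coeff_lifts]
    intro i
    have hmem : r.coeff i ∈ Ag θ⁻¹ := by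
      rw [coeff_scaleRoots, hqd, coeff_map]
      by_cases hi : i ≤ p.natDegree
      · rcases Nat.eq_or_lt_of_le hi with h2 | h2
        · rw [h2, Nat.sub_self, pow_zero, mul_one]
          have : p.coeff p.natDegree = 1 := hpm
          rw [this, map_one]
          exact one_mem _
        · have h3 := hN0 i hi (N0 * (p.natDegree - i)) (Nat.le_mul_of_pos_right _ (by omega))
          rw [← pow_mul, mul_comm]
          exact h3
      · rw [Polynomial.coeff_eq_zero_of_natDegree_lt (by omega), map_zero, zero_mul]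
        exact zero_mem _
    exact ⟨⟨_, hmem⟩, rfl⟩
  obtain ⟨s, hs, -, hsm⟩ := lifts_and_natDegree_eq_and_monic hl hrm
  refine ⟨s, hsm, ?_⟩
  rw [← aeval_def, ← aeval_map_algebraMap K, hs]
  exact hr

lemma exists_pow_pair {θ θ' : K} (h : θ' * θ = 1) {z : E} (hz : z ∈ Og E θ) :
    ∃ N : ℕ, θ' ^ N • z ∈ Og E θ' := by
  obtain rfl : θ' = θ⁻¹ := eq_inv_of_mul_eq_one_left h
  exact exists_pow_inv_Og (right_ne_zero_of_mul_eq_one h) hz

lemma exists_pow_Og {θ : K} (h0 : θ ≠ 0) {z : E} (hz : z ∈ Og E θ⁻¹) :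
    ∃ N : ℕ, θ ^ N • z ∈ Og E θ :=
  exists_pow_pair (mul_inv_cancel₀ h0) hz

variable [FiniteDimensional K E]

lemma charZeroK : CharZero K := charZero_of_injective_algebraMap (algebraMap ℂ K).injective

/-- Functions without poles are constant. -/
lemma mem_both_Og {θ : K} (h : Gen θ) {z : E} (h1 : z ∈ Og E θ) (h2 : z ∈ Og E θ⁻¹) :
    ∃ c : ℂ, z = algebraMap ℂ E c := by
  have := h.pid
  have := h.frac
  have := h.inv.pid
  have := h.inv.frac
  have : CharZero K := charZeroK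
  have e1 := minpoly.isIntegrallyClosed_eq_field_fractions' K (R := Ag θ) h1
  have e2 := minpoly.isIntegrallyClosed_eq_field_fractions' K (R := Ag θ⁻¹) h2
  have h3 : ∀ i, ∃ c : ℂ, algebraMap ℂ K c = (minpoly K z).coeff i := by
    intro i
    have h4 : (minpoly K z).coeff i ∈ Ag θ := by rw [e1, coeff_map]; exact ((minpoly (Ag θ) z).coeff i).2
    have h5 : (minpoly K z).coeff i ∈ Ag θ⁻¹ := by
      rw [e2, coeff_map]; exact ((minpoly (Ag θ⁻¹) z).coeff i).2
    obtain ⟨c, hc⟩ := mem_both h h4 h5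
    exact ⟨c, hc.symm⟩
  have hl : minpoly K z ∈ Polynomial.lifts (algebraMap ℂ K) := by
    rw [lifts_iff_coeff_lifts]
    exact h3
  have hzK : IsIntegral K z := Algebra.IsIntegral.isIntegral z
  obtain ⟨q, hq, -, hqm⟩ := lifts_and_natDegree_eq_and_monic hl (minpoly.monic hzK)
  have hz : IsIntegral ℂ z := by
    refine ⟨q, hqm, ?_⟩
    rw [← aeval_def, ← aeval_map_algebraMap K, hq]
    exact minpoly.aeval K z
  have := (IsAlgClosed.algebraMap_bijective_of_isIntegral (k := ℂ) (K := (integralClosure ℂ E))).2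
    ⟨z, hz⟩
  obtain ⟨c, hc⟩ := this
  refine ⟨c, ?_⟩
  exact (congrArg Subtype.val hc).symm

/-- If `z` and `θ z` are integral over `ℂ[θ]` and `ℂ[θ⁻¹]` respectively then `z = 0`. -/
lemma eq_zero_of_mul_mem_Og {θ : K} (h : Gen θ) {z : E} (h1 : z ∈ Og E θ)
    (h2 : θ • z ∈ Og E θ⁻¹) : z = 0 := by
  have := h.pid
  have := h.frac
  obtain ⟨c, hc⟩ := mem_both_Og h (smul_mem_Og (th_mem θ) h1) h2
  have h3 : z = algebraMap K E (θ⁻¹ * algebraMap ℂ K c) := by
    rw [map_mul, ← IsScalarTower.algebraMap_apply, ← hc, Algebra.smul_def, ← mul_assoc, ← map_mul,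
      inv_mul_cancel₀ h.ne_zero, map_one, one_mul]
  have h4 : IsIntegral (Ag θ) (θ⁻¹ * algebraMap ℂ K c) := by
    have : IsIntegral (Ag θ) (algebraMap K E (θ⁻¹ * algebraMap ℂ K c)) := h3 ▸ h1
    exact (isIntegral_algebraMap_iff (algebraMap K E).injective).1 this
  obtain ⟨a, ha⟩ := IsIntegrallyClosed.isIntegral_iff.1 h4
  have h5 : θ⁻¹ * algebraMap ℂ K c ∈ Ag θ := ha ▸ a.2
  have h6 : θ⁻¹ * algebraMap ℂ K c = 0 := by
    apply eq_zero_of_mul_mem h h5
    rw [← mul_assoc, mul_inv_cancel₀ h.ne_zero, one_mul]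
    exact (Ag θ⁻¹).algebraMap_mem c
  rw [h3, h6, map_zero]

end

end G0

end LCY
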