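import Pool.Agent.Helper84.LCY.G0b

/-!
Block GENUS0, part c: a simultaneous (reduced) basis of the integral closures of `ℂ[θ]` and
`ℂ[θ⁻¹]`.
-/

open Polynomial IntermediateField Module

set_option linter.unusedSectionVars false

namespace LCY

namespace G0

noncomputable section

variable {K : Type*} [Field K] [Algebra ℂ K]
variable {E : Type*} [Field E] [Algebra ℂ E] [Algebra K E] [IsScalarTower ℂ K E]
variable [FiniteDimensional K E]

/-- The family `y` is a basis of the integral closure of `ℂ[θ]`. -/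
def IsLat (θ : K) (y : Fin (finrank K E) → E) : Prop :=
  Submodule.span (Ag θ) (Set.range y) = Subalgebra.toSubmodule (Og E θ)

lemma exists_IsLat {θ : K} (h : Gen θ) : ∃ y : Fin (finrank K E) → E, IsLat θ y := by
  have := h.pid
  have := h.frac
  have : CharZero K := charZeroK
  have : Module.Free (Ag θ) (Og E θ) := IsIntegralClosure.module_free (Ag θ) K E (Og E θ)
  have : Module.Finite (Ag θ) (Og E θ) := IsIntegralClosure.finite (Ag θ) K E (Og E θ)
  have hr : finrank (Ag θ) (Og E θ) = finrank K E := IsIntegralClosure.rank (Ag θ) K E (Og E θ)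
  let b : Basis (Fin (finrank K E)) (Ag θ) (Og E θ) := Module.finBasisOfFinrankEq _ _ hr
  refine ⟨fun i => (b i : E), ?_⟩
  have h1 : (Set.range fun i => ((b i : Og E θ) : E)) =
      (Subalgebra.toSubmodule (Og E θ)).subtype '' (Set.range b) := by
    rw [← Set.range_comp]
    rfl
  rw [IsLat, h1, Submodule.span_image, b.span_eq, Submodule.map_top, Submodule.range_subtype]

lemma IsLat.mem {θ : K} {y : Fin (finrank K E) → E} (hy : IsLat θ y) (i : Fin (finrank K E)) :
    y i ∈ Og E θ := by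
  have : y i ∈ Submodule.span (Ag θ) (Set.range y) := Submodule.subset_span ⟨i, rfl⟩
  rw [hy] at this
  exact this

lemma IsLat.exists_coord {θ : K} {y : Fin (finrank K E) → E} (hy : IsLat θ y) {z : E}
    (hz : z ∈ Og E θ) : ∃ a : Fin (finrank K E) → K, (∀ i, a i ∈ Ag θ) ∧ z = ∑ i, a i • y i := by
  have h1 : z ∈ Submodule.span (Ag θ) (Set.range y) := by rw [hy]; exact hz
  obtain ⟨c, hc⟩ := (Submodule.mem_span_range_iff_exists_fun (Ag θ)).1 h1
  exact ⟨fun i => (c i : K), fun i => (c i).2, hc.symm⟩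

lemma IsLat.top_le {θ : K} (h : Gen θ) {y : Fin (finrank K E) → E} (hy : IsLat θ y) :
    ⊤ ≤ Submodule.span K (Set.range y) := by
  have := h.pid
  have := h.frac
  intro z _
  have hz : IsAlgebraic (Ag θ) z := by
    have : Algebra.IsAlgebraic (Ag θ) E := (IsFractionRing.comap_isAlgebraic_iff (K := K)).2 inferInstance
    exact Algebra.IsAlgebraic.isAlgebraic z
  obtain ⟨a, ha0, ha⟩ := hz.exists_integral_multiple
  obtain ⟨c, -, hc⟩ := hy.exists_coord (z := a • z) ha
  have h1 : (a : K) ≠ 0 := fun hh => ha0 (Subtype.ext hh)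
  have h2 : z = (a : K)⁻¹ • (a • z) := by
    change z = (a : K)⁻¹ • ((a : K) • z)
    rw [smul_smul, inv_mul_cancel₀ h1, one_smul]
  rw [h2, hc]
  apply Submodule.smul_mem
  apply Submodule.sum_mem
  intro i _
  exact Submodule.smul_mem _ _ (Submodule.subset_span ⟨i, rfl⟩)

/-- The `K`-basis of `E` attached to a lattice basis. -/
def IsLat.bas {θ : K} (h : Gen θ) {y : Fin (finrank K E) → E} (hy : IsLat θ y) :
    Basis (Fin (finrank K E)) K E :=
  basisOfTopLeSpanOfCardEqFinrank y (hy.top_le h) (by simp)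

@[simp] lemma IsLat.bas_apply {θ : K} (h : Gen θ) {y : Fin (finrank K E) → E} (hy : IsLat θ y)
    (i : Fin (finrank K E)) : hy.bas h i = y i := by
  simp [IsLat.bas]

lemma IsLat.repr_mem {θ : K} (h : Gen θ) {y : Fin (finrank K E) → E} (hy : IsLat θ y) {z : E}
    (hz : z ∈ Og E θ) (i : Fin (finrank K E)) : (hy.bas h).repr z i ∈ Ag θ := by
  obtain ⟨a, ha, hza⟩ := hy.exists_coord hz
  have h1 : z = ∑ i, a i • hy.bas h i := by simpa using hza
  rw [h1, (hy.bas h).repr_sum_self]
  exact ha i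

/-- Replacing one basis vector. -/
lemma IsLat.update {θ : K} {y : Fin (finrank K E) → E} (hy : IsLat θ y)
    (i0 : Fin (finrank K E)) (a : Fin (finrank K E) → K) (ha : ∀ i, a i ∈ Ag θ)
    (hu : (a i0)⁻¹ ∈ Ag θ) (hne : a i0 ≠ 0) :
    IsLat θ (Function.update y i0 (∑ i, a i • y i)) := by
  classical
  rw [IsLat, ← hy]
  have hsm : ∀ {S : Submodule (Ag θ) E} {b : K} {z : E}, b ∈ Ag θ → z ∈ S → b • z ∈ S := by
    intro S b z hb hz
    exact S.smul_mem (⟨b, hb⟩ : Ag θ) hz
  apply le_antisymm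
  · rw [Submodule.span_le]
    rintro _ ⟨i, rfl⟩
    by_cases hi : i = i0
    · subst hi
      rw [Function.update_self]
      exact Submodule.sum_mem _ fun j _ => hsm (ha j) (Submodule.subset_span ⟨j, rfl⟩)
    · rw [Function.update_of_ne hi]
      exact Submodule.subset_span ⟨i, rfl⟩
  · rw [Submodule.span_le]
    have h1 : ∀ i, i ≠ i0 → y i ∈ Submodule.span (Ag θ)
        (Set.range (Function.update y i0 (∑ i, a i • y i))) := by
      intro i hi
      apply Submodule.subset_span
      exact ⟨i, by rw [Function.update_of_ne hi]⟩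
    rintro _ ⟨i, rfl⟩
    by_cases hi : i = i0
    · subst hi
      have h2 : (∑ j, a j • y j) ∈ Submodule.span (Ag θ)
        (Set.range (Function.update y i (∑ i, a i • y i))) :=
        Submodule.subset_span ⟨i, by rw [Function.update_self]⟩
      have h3 : y i = (a i)⁻¹ • ((∑ j, a j • y j) - ∑ j ∈ Finset.univ.erase i, a j • y j) := by
        rw [← Finset.add_sum_erase _ _ (Finset.mem_univ i), add_sub_cancel_right, smul_smul,
          inv_mul_cancel₀ hne, one_smul]
      have h4 : (a i)⁻¹ • ((∑ j, a j • y j) - ∑ j ∈ Finset.univ.erase i, a j • y j) ∈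
          Submodule.span (Ag θ) (Set.range (Function.update y i (∑ i, a i • y i))) := by
        apply hsm hu
        apply sub_mem h2
        apply Submodule.sum_mem
        intro j hj
        exact hsm (ha j) (h1 j (Finset.ne_of_mem_erase hj))
      rw [← h3] at h4
      exact h4
    · exact h1 i hi

/-- A pair: lattice basis and degrees at infinity. -/
def IsPair (θ : K) (y : Fin (finrank K E) → E) (d : Fin (finrank K E) → ℕ) : Prop :=
  IsLat θ y ∧ ∀ i, (θ⁻¹) ^ (d i) • y i ∈ Og E θ⁻¹

lemma exists_IsPair {θ : K} (h : Gen θ) :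
    ∃ (y : Fin (finrank K E) → E) (d : Fin (finrank K E) → ℕ), IsPair θ y d := by
  obtain ⟨y, hy⟩ := exists_IsLat (E := E) h
  have h1 : ∀ i, ∃ N : ℕ, (θ⁻¹) ^ N • y i ∈ Og E θ⁻¹ :=
    fun i => exists_pow_inv_Og h.ne_zero (hy.mem i)
  choose d hd using h1
  exact ⟨y, d, hy, hd⟩

/-- A pair with minimal total degree. -/
lemma exists_min_IsPair {θ : K} (h : Gen θ) :
    ∃ (y : Fin (finrank K E) → E) (d : Fin (finrank K E) → ℕ), IsPair θ y d ∧
      ∀ (y' : Fin (finrank K E) → E) (d' : Fin (finrank K E) → ℕ), IsPair θ y' d' →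
        ∑ i, d i ≤ ∑ i, d' i := by
  classical
  let P : ℕ → Prop := fun m => ∃ (y : Fin (finrank K E) → E) (d : Fin (finrank K E) → ℕ),
    IsPair θ y d ∧ ∑ i, d i = m
  have hP : ∃ m, P m := by
    obtain ⟨y, d, hyd⟩ := exists_IsPair (E := E) h
    exact ⟨_, y, d, hyd, rfl⟩
  obtain ⟨y, d, hyd, hs⟩ := Nat.find_spec hP
  refine ⟨y, d, hyd, fun y' d' hyd' => ?_⟩
  rw [hs]
  exact Nat.find_min' hP ⟨y', d', hyd', rfl⟩

/-- Minimal pairs are reduced. -/
lemma reduced_of_min {θ : K} (h : Gen θ) {y : Fin (finrank K E) → E}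
    {d : Fin (finrank K E) → ℕ} (hyd : IsPair θ y d)
    (hmin : ∀ (y' : Fin (finrank K E) → E) (d' : Fin (finrank K E) → ℕ), IsPair θ y' d' →
        ∑ i, d i ≤ ∑ i, d' i)
    (c : Fin (finrank K E) → ℂ)
    (hc : ∃ z' ∈ Og E θ⁻¹, ∑ i, (algebraMap ℂ K (c i) * (θ⁻¹) ^ (d i)) • y i = θ⁻¹ • z') :
    ∀ i, c i = 0 := by
  classical
  obtain ⟨z', hz', hsum⟩ := hc
  by_contra hcon
  push Not at hcon
  have h0 := h.ne_zero
  let S : Finset (Fin (finrank K E)) := Finset.univ.filter fun i => c i ≠ 0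
  have hS : S.Nonempty := by
    obtain ⟨i, hi⟩ := hcon
    exact ⟨i, by simp [S, hi]⟩
  obtain ⟨i0, hi0S, hi0⟩ := S.exists_max_image d hS
  have hci0 : c i0 ≠ 0 := by simpa [S] using hi0S
  have hle : ∀ i, c i ≠ 0 → d i ≤ d i0 := fun i hi => hi0 i (by simp [S, hi])
  let a : Fin (finrank K E) → K := fun i => algebraMap ℂ K (c i) * θ ^ (d i0 - d i)
  have ha : ∀ i, a i ∈ Ag θ := fun i =>
    mul_mem ((Ag θ).algebraMap_mem _) (pow_mem (th_mem θ) _)
  have hai0 : a i0 = algebraMap ℂ K (c i0) := by simp [a]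
  have hne : a i0 ≠ 0 := by
    rw [hai0]
    exact (map_ne_zero_iff _ (algebraMap ℂ K).injective).2 hci0
  have hu : (a i0)⁻¹ ∈ Ag θ := by
    rw [hai0, ← map_inv₀]
    exact (Ag θ).algebraMap_mem _
  have hlat := hyd.1.update i0 a ha hu hne
  have hkey : (θ⁻¹) ^ (d i0) • (∑ i, a i • y i) = θ⁻¹ • z' := by
    rw [← hsum, Finset.smul_sum]
    refine Finset.sum_congr rfl fun i _ => ?_
    rw [smul_smul]
    congr 1
    by_cases hi : c i = 0
    · simp [a, hi]
    · have h1 := hle i hi
      have h2 : (θ⁻¹) ^ (d i0) = (θ⁻¹) ^ (d i) * (θ⁻¹) ^ (d i0 - d i) := by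
        rw [← pow_add]; congr 1; omega
      simp only [a]
      rw [h2]
      have h3 : (θ⁻¹) ^ (d i0 - d i) * θ ^ (d i0 - d i) = 1 := by
        rw [← mul_pow, inv_mul_cancel₀ h0, one_pow]
      calc (θ⁻¹) ^ (d i) * (θ⁻¹) ^ (d i0 - d i) * (algebraMap ℂ K (c i) * θ ^ (d i0 - d i))
          = algebraMap ℂ K (c i) * (θ⁻¹) ^ (d i) * ((θ⁻¹) ^ (d i0 - d i) * θ ^ (d i0 - d i)) := by
            ring
        _ = _ := by rw [h3, mul_one]
  rcases Nat.eq_zero_or_pos (d i0) with hd | hd
  · have h1 : (∑ i, a i • y i) ∈ Og E θ := by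
      have := hlat.mem i0
      rwa [Function.update_self] at this
    have h2 : θ • (∑ i, a i • y i) ∈ Og E θ⁻¹ := by
      rw [hd, pow_zero, one_smul] at hkey
      rw [hkey, smul_smul, mul_inv_cancel₀ h0, one_smul]
      exact hz'
    have h3 := eq_zero_of_mul_mem_Og h h1 h2
    have h4 : (hyd.1.bas h).repr (∑ i, a i • hyd.1.bas h i) i0 = 0 := by
      have : (∑ i, a i • hyd.1.bas h i) = 0 := by simpa using h3
      rw [this]
      simp
    rw [(hyd.1.bas h).repr_sum_self] at h4
    exact hne h4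
  · have hp : IsPair θ (Function.update y i0 (∑ i, a i • y i)) (Function.update d i0 (d i0 - 1)) := by
      refine ⟨hlat, fun i => ?_⟩
      by_cases hi : i = i0
      · subst hi
        rw [Function.update_self, Function.update_self]
        have h1 : (θ⁻¹) ^ (d i) = (θ⁻¹) * (θ⁻¹) ^ (d i - 1) := by
          rw [← pow_succ']; congr 1; omega
        rw [h1, mul_smul] at hkey
        have h2 := congrArg (fun z => θ • z) hkey
        simp only [smul_smul] at h2
        rw [← mul_assoc, mul_inv_cancel₀ h0, one_mul, one_smul] at h2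
        rw [h2]
        exact hz'
      · rw [Function.update_of_ne hi, Function.update_of_ne hi]
        exact hyd.2 i
    have h1 := hmin _ _ hp
    have h2 : ∑ i, Function.update d i0 (d i0 - 1) i < ∑ i, d i := by
      apply Finset.sum_lt_sum
      · intro i _
        by_cases hi : i = i0
        · subst hi; rw [Function.update_self]; omega
        · rw [Function.update_of_ne hi]
      · exact ⟨i0, Finset.mem_univ _, by rw [Function.update_self]; omega⟩
    omega

end

end G0

end LCY
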