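import Pool.Agent.Helper84.LCY.G0c

/-!
Block GENUS0, part d: the reduced basis theorem.
-/

open Polynomial IntermediateField Module

set_option linter.unusedSectionVars false

namespace LCY

namespace G0

noncomputable section

variable {K : Type*} [Field K] [Algebra ℂ K]
variable {E : Type*} [Field E] [Algebra ℂ E] [Algebra K E] [IsScalarTower ℂ K E]
variable [FiniteDimensional K E]

lemma coord_inf_step {θ : K} (h : Gen θ) (b : Basis (Fin (finrank K E)) K E)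
    {d : Fin (finrank K E) → ℕ} (hd : ∀ i, (θ⁻¹) ^ (d i) • b i ∈ Og E θ⁻¹)
    (hred : ∀ c : Fin (finrank K E) → ℂ,
      (∃ z' ∈ Og E θ⁻¹, ∑ i, (algebraMap ℂ K (c i) * (θ⁻¹) ^ (d i)) • b i = θ⁻¹ • z') →
      ∀ i, c i = 0) (m : ℕ) :
    ∀ z ∈ Og E θ⁻¹, (∀ i, (θ⁻¹) ^ m * (θ ^ (d i) * b.repr z i) ∈ Ag θ⁻¹) →
      ∀ i, θ ^ (d i) * b.repr z i ∈ Ag θ⁻¹ := by
  have h0 := h.ne_zero
  induction m with
  | zero =>
    intro z _ hz i
    simpa using hz i
  | succ m ih =>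
    intro z hz hβ
    have h1 : ∀ i, ∃ b' : Ag θ⁻¹, (θ⁻¹) ^ (m + 1) * (θ ^ (d i) * b.repr z i) =
        algebraMap ℂ K (ev0 h.inv ⟨_, hβ i⟩) + θ⁻¹ * b' := by
      intro i
      obtain ⟨b', hb'⟩ := exists_split h.inv ⟨_, hβ i⟩
      exact ⟨b', congrArg Subtype.val hb'⟩
    choose b' hb' using h1
    let c : Fin (finrank K E) → ℂ := fun i => ev0 h.inv ⟨_, hβ i⟩
    have hz' : (θ⁻¹) ^ m • z - ∑ i, (b' i : K) • ((θ⁻¹) ^ (d i) • b i) ∈ Og E θ⁻¹ := by
      apply sub_mem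
      · exact smul_mem_Og (pow_mem (th_mem _) _) hz
      · exact sum_mem fun i _ => smul_mem_Og (b' i).2 (hd i)
    have hsum : ∑ i, (algebraMap ℂ K (c i) * (θ⁻¹) ^ (d i)) • b i =
        θ⁻¹ • ((θ⁻¹) ^ m • z - ∑ i, (b' i : K) • ((θ⁻¹) ^ (d i) • b i)) := by
      have hzs : z = ∑ i, b.repr z i • b i := (b.sum_repr z).symm
      rw [smul_sub, smul_smul, ← pow_succ', Finset.smul_sum, eq_sub_iff_add_eq,
        ← Finset.sum_add_distrib]
      conv_rhs => rw [hzs, Finset.smul_sum]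
      refine Finset.sum_congr rfl fun i _ => ?_
      rw [smul_smul, smul_smul, smul_smul, ← add_smul]
      congr 1
      have h2 := hb' i
      have h3 : (θ⁻¹) ^ (d i) * θ ^ (d i) = 1 := by
        rw [← mul_pow, inv_mul_cancel₀ h0, one_pow]
      calc algebraMap ℂ K (c i) * (θ⁻¹) ^ (d i) + θ⁻¹ * (b' i : K) * (θ⁻¹) ^ (d i)
          = (θ⁻¹) ^ (d i) * (algebraMap ℂ K (c i) + θ⁻¹ * (b' i : K)) := by ring
        _ = (θ⁻¹) ^ (d i) * ((θ⁻¹) ^ (m + 1) * (θ ^ (d i) * b.repr z i)) := by rw [h2]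
        _ = (θ⁻¹) ^ (m + 1) * b.repr z i * ((θ⁻¹) ^ (d i) * θ ^ (d i)) := by ring
        _ = _ := by rw [h3, mul_one]
    have hc0 := hred c ⟨_, hz', hsum⟩
    apply ih z hz
    intro i
    have h2 := hb' i
    rw [show ev0 h.inv ⟨_, hβ i⟩ = c i from rfl, hc0 i, map_zero, zero_add, pow_succ', mul_assoc]
      at h2
    have h3 := mul_left_cancel₀ (inv_ne_zero h0) h2
    rw [h3]
    exact (b' i).2

/-- The reduced basis theorem. -/
theorem exists_reduced {θ : K} (h : Gen θ) :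
    ∃ (b : Basis (Fin (finrank K E)) K E) (d : Fin (finrank K E) → ℕ),
      (∀ i, b i ∈ Og E θ) ∧ (∀ i, (θ⁻¹) ^ (d i) • b i ∈ Og E θ⁻¹) ∧
      (∀ z ∈ Og E θ, ∀ i, b.repr z i ∈ Ag θ) ∧
      (∀ z ∈ Og E θ⁻¹, ∀ i, θ ^ (d i) * b.repr z i ∈ Ag θ⁻¹) := by
  classical
  have h0 := h.ne_zero
  obtain ⟨y, d, hyd, hmin⟩ := exists_min_IsPair (E := E) h
  have hred := fun c => reduced_of_min h hyd hmin c
  refine ⟨hyd.1.bas h, d, fun i => by simpa using hyd.1.mem i, fun i => by simpa using hyd.2 i,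
    fun z hz i => hyd.1.repr_mem h hz i, ?_⟩
  intro z hz
  obtain ⟨M, hM⟩ := exists_pow_Og h0 hz
  have h1 : ∀ i, ∃ N : ℕ, ∀ N' : ℕ, N ≤ N' →
      (θ⁻¹) ^ N' * (θ ^ (d i) * (θ ^ M * (hyd.1.bas h).repr z i)) ∈ Ag θ⁻¹ := by
    intro i
    apply exists_pow_inv h0
    have := hyd.1.repr_mem h hM i
    rw [map_smul] at this
    exact mul_mem (pow_mem (th_mem θ) _) this
  choose N hN using h1
  let N0 := Finset.univ.sup N
  apply coord_inf_step h (hyd.1.bas h) (d := d) (fun i => by simpa using hyd.2 i)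
    (by simpa using hred) N0 z hz
  intro i
  have h2 := hN i (M + N0) (le_trans (Finset.le_sup (f := N) (Finset.mem_univ i)) (by omega))
  have h3 : (θ⁻¹) ^ M * θ ^ M = 1 := by rw [← mul_pow, inv_mul_cancel₀ h0, one_pow]
  have h4 : (θ⁻¹) ^ (M + N0) * (θ ^ (d i) * (θ ^ M * (hyd.1.bas h).repr z i)) =
      (θ⁻¹) ^ N0 * (θ ^ (d i) * (hyd.1.bas h).repr z i) := by
    calc (θ⁻¹) ^ (M + N0) * (θ ^ (d i) * (θ ^ M * (hyd.1.bas h).repr z i))
        = ((θ⁻¹) ^ M * θ ^ M) * ((θ⁻¹) ^ N0 * (θ ^ (d i) * (hyd.1.bas h).repr z i)) := by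
          rw [pow_add]; ring
      _ = _ := by rw [h3, one_mul]
  rwa [h4] at h2

/-- The trace dual alternative: if some degree is at least two there is a nonzero `x` with
`Tr (x z)` polynomial in `θ` for `z` integral over `ℂ[θ]`, and `Tr (θ² x z)` polynomial in
`θ⁻¹` for `z` integral over `ℂ[θ⁻¹]`. -/
theorem exists_dual {θ : K} (b : Basis (Fin (finrank K E)) K E)
    (d : Fin (finrank K E) → ℕ)
    (h3 : ∀ z ∈ Og E θ, ∀ i, b.repr z i ∈ Ag θ)
    (h4 : ∀ z ∈ Og E θ⁻¹, ∀ i, θ ^ (d i) * b.repr z i ∈ Ag θ⁻¹)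
    (h0 : θ ≠ 0) (i : Fin (finrank K E)) (hi : 2 ≤ d i) :
    ∃ x : E, x ≠ 0 ∧ (∀ z ∈ Og E θ, Algebra.trace K E (x * z) ∈ Ag θ) ∧
      (∀ z ∈ Og E θ⁻¹, Algebra.trace K E ((θ ^ 2 • x) * z) ∈ Ag θ⁻¹) := by
  classical
  have : CharZero K := charZeroK
  let bd := (Algebra.traceForm K E).dualBasis (traceForm_nondegenerate K E) b
  have hkey : ∀ z, Algebra.trace K E (bd i * z) = b.repr z i := by
    intro z
    conv_lhs => rw [← b.sum_repr z, Finset.mul_sum, map_sum]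
    rw [Finset.sum_eq_single i]
    · rw [mul_smul_comm, map_smul]
      have := LinearMap.BilinForm.apply_dualBasis_left (B := Algebra.traceForm K E)
        (traceForm_nondegenerate K E) b i i
      rw [Algebra.traceForm_apply] at this
      rw [this]
      simp
    · intro j _ hj
      rw [mul_smul_comm, map_smul]
      have := LinearMap.BilinForm.apply_dualBasis_left (B := Algebra.traceForm K E)
        (traceForm_nondegenerate K E) b i j
      rw [Algebra.traceForm_apply] at this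
      rw [this, if_neg hj, smul_zero]
    · intro hh
      exact absurd (Finset.mem_univ i) hh
  refine ⟨bd i, bd.ne_zero i, fun z hz => by rw [hkey]; exact h3 z hz i, fun z hz => ?_⟩
  rw [smul_mul_assoc, map_smul, hkey]
  have h5 := h4 z hz i
  have h6 : θ ^ 2 • b.repr z i = (θ⁻¹) ^ (d i - 2) * (θ ^ (d i) * b.repr z i) := by
    have h7 : θ ^ (d i) = θ ^ (d i - 2) * θ ^ 2 := by rw [← pow_add]; congr 1; omega
    have h8 : (θ⁻¹) ^ (d i - 2) * θ ^ (d i - 2) = 1 := by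
      rw [← mul_pow, inv_mul_cancel₀ h0, one_pow]
    rw [h7, smul_eq_mul]
    calc θ ^ 2 * b.repr z i = ((θ⁻¹) ^ (d i - 2) * θ ^ (d i - 2)) * (θ ^ 2 * b.repr z i) := by
          rw [h8, one_mul]
      _ = _ := by ring
  rw [h6]
  exact mul_mem (pow_mem (th_mem _) _) h5

end

end G0

end LCY
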