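import Pool.Agent.Helper84.LCY.G0d
import Pool.Agent.Helper48.LCY.Top

/-!
Block GENUS0, part e: an element of the integral closure that is idempotent modulo `θ` and has
trace divisible by `θ` is divisible by `θ`.
-/

open Polynomial IntermediateField Module

set_option linter.unusedSectionVars false

namespace LCY

namespace G0

noncomputable section

variable {K : Type*} [Field K] [Algebra ℂ K]
variable {E : Type*} [Field E] [Algebra ℂ E] [Algebra K E] [IsScalarTower ℂ K E]
variable [FiniteDimensional K E]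

lemma ev0_mul_th {θ : K} (h : Gen θ) (a : Ag θ) : ev0 h (th θ * a) = 0 := by
  rw [map_mul, ev0_th, zero_mul]

lemma trace_idem {θ : K} (h : Gen θ) {n : ℕ} (b : Basis (Fin n) K E)
    (hb : ∀ i, b i ∈ Og E θ) (hb' : ∀ z ∈ Og E θ, ∀ i, b.repr z i ∈ Ag θ) {t : E}
    (ht : t ∈ Og E θ) (ht2 : ∃ z ∈ Og E θ, t * t - t = θ • z)
    (htr : ∃ a ∈ Ag θ, Algebra.trace K E t = θ * a) : ∃ z ∈ Og E θ, t = θ • z := by
  classical
  obtain ⟨z0, hz0, hz0'⟩ := ht2
  obtain ⟨a0, ha0, ha0'⟩ := htr
  let M : Matrix (Fin n) (Fin n) K := Algebra.leftMulMatrix b t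
  have hM : ∀ i j, M i j = b.repr (t * b j) i := fun i j => Algebra.leftMulMatrix_eq_repr_mul b t i j
  have hMA : ∀ i j, M i j ∈ Ag θ := fun i j => by
    rw [hM]
    exact hb' _ (mul_mem ht (hb j)) i
  let M' : Matrix (Fin n) (Fin n) (Ag θ) := fun i j => ⟨M i j, hMA i j⟩
  have hM'M : M'.map (Ag θ).val = M := by
    ext i j
    rfl
  let N : Matrix (Fin n) (Fin n) ℂ := M'.map (ev0 h)
  have hinj : Function.Injective fun X : Matrix (Fin n) (Fin n) (Ag θ) => X.map (Ag θ).val :=
    Matrix.map_injective Subtype.val_injective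
  have hMM : ∃ Z : Matrix (Fin n) (Fin n) (Ag θ), M' * M' - M' = (th θ) • Z := by
    refine ⟨fun i j => ⟨b.repr (z0 * b j) i, hb' _ (mul_mem hz0 (hb j)) i⟩, ?_⟩
    apply hinj
    have h1 : (M' * M' - M').map (Ag θ).val = M * M - M := by
      have h2 := (Ag θ).val.toRingHom.mapMatrix.map_sub (M' * M') M'
      have h3 := (Ag θ).val.toRingHom.mapMatrix.map_mul M' M'
      have h4 : (Ag θ).val.toRingHom.mapMatrix M' = M := hM'M
      change (Ag θ).val.toRingHom.mapMatrix (M' * M' - M') = _
      rw [h2, h3, h4]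
    change (M' * M' - M').map (Ag θ).val = _
    rw [h1]
    have h5 : M * M - M = Algebra.leftMulMatrix b (t * t - t) := by
      simp only [M]
      rw [map_sub, map_mul]
    rw [h5, hz0']
    ext i j
    rw [Algebra.leftMulMatrix_eq_repr_mul, smul_mul_assoc, map_smul]
    rfl
  have hN : IsIdempotentElem N := by
    obtain ⟨Z, hZ⟩ := hMM
    have h2 := congrArg (ev0 h).toRingHom.mapMatrix hZ
    rw [map_sub, map_mul] at h2
    have h3 : (ev0 h).toRingHom.mapMatrix M' = N := rfl
    rw [h3] at h2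
    have h4 : (ev0 h).toRingHom.mapMatrix ((th θ) • Z) = 0 := by
      ext i j
      change ev0 h (th θ * Z i j) = 0
      exact ev0_mul_th h _
    rw [h4, sub_eq_zero] at h2
    exact h2
  have htrN : N.trace = 0 := by
    have h1 : N.trace = ev0 h M'.trace := by
      rw [Matrix.trace, Matrix.trace, map_sum]
      rfl
    have h2 : M'.trace = th θ * ⟨a0, ha0⟩ := by
      apply Subtype.ext
      have h3 : ((M'.trace : Ag θ) : K) = M.trace := by
        rw [Matrix.trace, Matrix.trace]
        push_cast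
        rfl
      rw [h3]
      have h4 := Algebra.trace_eq_matrix_trace b t
      change M.trace = θ * a0
      rw [← ha0', h4]
    rw [h1, h2, ev0_mul_th]
  have hN0 : N = 0 := by
    have h1 : IsIdempotentElem (Matrix.toLin' N) := by
      rw [IsIdempotentElem, Module.End.mul_eq_comp, ← Matrix.toLin'_mul, hN.eq]
    have h2 : LinearMap.trace ℂ _ (Matrix.toLin' N) = 0 := by
      rw [Matrix.trace_toLin'_eq, htrN]
    have h3 := LinearMap.IsIdempotentElem.eq_zero_of_trace_eq_zero h1 h2
    exact (Matrix.toLin' (R := ℂ)).injective (by rw [h3, map_zero])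
  have h5 : ∀ j, ∃ z ∈ Og E θ, t * b j = θ • z := by
    intro j
    have h6 : ∀ i, ∃ c : Ag θ, M' i j = th θ * c := by
      intro i
      apply ev0_eq_zero h
      have := congrFun (congrFun hN0 i) j
      exact this
    choose c hc using h6
    refine ⟨∑ i, (c i : K) • b i, sum_mem fun i _ => smul_mem_Og (c i).2 (hb i), ?_⟩
    rw [← b.sum_repr (t * b j), Finset.smul_sum]
    refine Finset.sum_congr rfl fun i _ => ?_
    rw [smul_smul, ← hM]
    congr 1
    exact congrArg Subtype.val (hc i)
  choose z hz hz' using h5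
  refine ⟨∑ j, b.repr 1 j • z j, sum_mem fun j _ =>
    smul_mem_Og (hb' 1 (one_mem _) j) (hz j), ?_⟩
  have h7 : t = t * ∑ j, b.repr 1 j • b j := by rw [b.sum_repr, mul_one]
  conv_lhs => rw [h7]
  rw [Finset.mul_sum, Finset.smul_sum]
  refine Finset.sum_congr rfl fun j _ => ?_
  rw [mul_smul_comm, hz', smul_comm]

end

end G0

end LCY
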