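import Pool.Agent.Helper84.LCY.G0e

/-!
Block GENUS0, part f: the tame bound.
-/

open Polynomial IntermediateField Module

set_option linter.unusedSectionVars false

namespace LCY

namespace G0

noncomputable section

section CV

variable {E : Type} [Field E] [Algebra ℂ E] (w : CVal E)

lemma cv_one : w.w 1 = 0 := by
  have := w.map_const 1 one_ne_zero
  simpa using this

lemma cv_neg (a : E) (ha : a ≠ 0) : w.w (-a) = w.w a := by
  have h1 : w.w (-1) = 0 := by
    have := w.map_const (-1) (by norm_num)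
    simpa using this
  have h2 := w.map_mul (-1) a (by norm_num) ha
  rw [neg_one_mul, h1, zero_add] at h2
  exact h2

lemma cv_inv (a : E) (ha : a ≠ 0) : w.w a⁻¹ = - w.w a := by
  have h2 := w.map_mul a a⁻¹ ha (inv_ne_zero ha)
  rw [mul_inv_cancel₀ ha, cv_one] at h2
  omega

/-- The valuation ring of `w`. -/
def vs : ValuationSubring E where
  carrier := {a | a = 0 ∨ 0 ≤ w.w a}
  mul_mem' := by
    rintro a b ha hb
    by_cases h1 : a = 0
    · left; rw [h1, zero_mul]
    by_cases h2 : b = 0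
    · left; rw [h2, mul_zero]
    right
    have ha' := ha.resolve_left h1
    have hb' := hb.resolve_left h2
    rw [w.map_mul a b h1 h2]
    omega
  one_mem' := Or.inr (by rw [cv_one])
  add_mem' := by
    rintro a b ha hb
    by_cases h1 : a = 0
    · rw [h1, zero_add]; exact hb
    by_cases h2 : b = 0
    · rw [h2, add_zero]; exact ha
    by_cases h3 : a + b = 0
    · left; exact h3
    right
    have ha' := ha.resolve_left h1
    have hb' := hb.resolve_left h2
    have := w.map_add a b h1 h2 h3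
    omega
  zero_mem' := Or.inl rfl
  neg_mem' := by
    rintro a ha
    by_cases h1 : a = 0
    · left; rw [h1, neg_zero]
    right
    rw [cv_neg w a h1]
    exact ha.resolve_left h1
  mem_or_inv_mem' := by
    intro a
    by_cases h1 : a = 0
    · left; exact Or.inl h1
    rcases le_total 0 (w.w a) with h2 | h2
    · left; exact Or.inr h2
    · right; right; rw [cv_inv w a h1]; omega

lemma mem_vs {a : E} : a ∈ vs w ↔ a = 0 ∨ 0 ≤ w.w a := Iff.rfl

end CV

variable {K : Type*} [Field K] [Algebra ℂ K]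
variable {E : Type} [Field E] [Algebra ℂ E] [Algebra K E] [IsScalarTower ℂ K E]

/-- The valuation is non-negative on `ℂ[θ]` if it is on `θ`. -/
lemma Ag_le_vs (w : CVal E) {θ : K} (hw : 0 ≤ w.w (algebraMap K E θ)) {a : K} (ha : a ∈ Ag θ) :
    algebraMap K E a ∈ vs w := by
  induction ha using Algebra.adjoin_induction with
  | mem x hx =>
    rw [Set.mem_singleton_iff] at hx
    subst hx
    exact Or.inr hw
  | algebraMap c =>
    rw [← IsScalarTower.algebraMap_apply]
    by_cases hc : c = 0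
    · left; rw [hc, map_zero]
    · right; rw [w.map_const c hc]
  | add x y _ _ hx hy => rw [map_add]; exact (vs w).add_mem _ _ hx hy
  | mul x y _ _ hx hy => rw [map_mul]; exact (vs w).mul_mem _ _ hx hy

/-- The valuation is non-negative on the integral closure of `ℂ[θ]` if it is on `θ`. -/
lemma Og_le_vs (w : CVal E) {θ : K} (hw : 0 ≤ w.w (algebraMap K E θ)) {z : E} (hz : z ∈ Og E θ) :
    z ∈ vs w := by
  let f : Ag θ →+* vs w := (((algebraMap K E).comp (Ag θ).val.toRingHom).codRestrict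
    (vs w).toSubring fun a => Ag_le_vs w hw a.2)
  obtain ⟨p, hpm, hp⟩ := hz
  have h1 : IsIntegral (vs w) z := by
    refine ⟨p.map f, hpm.map f, ?_⟩
    rw [eval₂_map]
    exact hp
  obtain ⟨y, hy⟩ := IsIntegrallyClosed.isIntegral_iff.1 h1
  rw [← hy]
  exact y.2

/-- The centre of the valuation on the integral closure. -/
def ctr (w : CVal E) {θ : K} (hw : 0 ≤ w.w (algebraMap K E θ)) : Ideal (Og E θ) where
  carrier := {z | (z : E) = 0 ∨ 0 < w.w (z : E)}
  add_mem' := by
    rintro ⟨a, ha'⟩ ⟨b, hb'⟩ ha hb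
    simp only [Set.mem_ofPred_eq] at ha hb ⊢
    change a + b = 0 ∨ 0 < w.w (a + b)
    by_cases h1 : a = 0
    · rw [h1, zero_add]; exact hb
    by_cases h2 : b = 0
    · rw [h2, add_zero]; exact ha
    by_cases h3 : a + b = 0
    · left; exact h3
    right
    have ha'' := ha.resolve_left h1
    have hb'' := hb.resolve_left h2
    have := w.map_add a b h1 h2 h3
    omega
  zero_mem' := Or.inl rfl
  smul_mem' := by
    rintro ⟨a, ha'⟩ ⟨b, hb'⟩ hb
    simp only [Set.mem_ofPred_eq] at hb ⊢
    change a * b = 0 ∨ 0 < w.w (a * b)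
    by_cases h1 : a = 0
    · left; rw [h1, zero_mul]
    by_cases h2 : b = 0
    · left; rw [h2, mul_zero]
    right
    have ha'' := (Og_le_vs w hw ha').resolve_left h1
    have hb'' := hb.resolve_left h2
    rw [w.map_mul a b h1 h2]
    omega

lemma mem_ctr (w : CVal E) {θ : K} (hw : 0 ≤ w.w (algebraMap K E θ)) {z : Og E θ} :
    z ∈ ctr w hw ↔ (z : E) = 0 ∨ 0 < w.w (z : E) := Iff.rfl

lemma not_mem_ctr (w : CVal E) {θ : K} (hw : 0 ≤ w.w (algebraMap K E θ)) {z : Og E θ} :
    z ∉ ctr w hw ↔ (z : E) ≠ 0 ∧ w.w (z : E) = 0 := by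
  rw [mem_ctr, not_or]
  constructor
  · rintro ⟨h1, h2⟩
    have := (Og_le_vs w hw z.2).resolve_left h1
    exact ⟨h1, by omega⟩
  · rintro ⟨h1, h2⟩
    exact ⟨h1, by omega⟩

lemma ctr_prime (w : CVal E) {θ : K} (hw : 0 ≤ w.w (algebraMap K E θ)) : (ctr w hw).IsPrime := by
  refine ⟨?_, ?_⟩
  · rw [Ideal.ne_top_iff_one, not_mem_ctr]
    refine ⟨one_ne_zero, ?_⟩
    change w.w 1 = 0
    exact cv_one w
  · intro a b hab
    by_contra hcon
    rw [not_or, not_mem_ctr, not_mem_ctr] at hcon
    obtain ⟨⟨h1, h2⟩, h3, h4⟩ := hcon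
    have h5 := w.map_mul _ _ h1 h3
    rcases hab with h6 | h6
    · exact (mul_ne_zero h1 h3) h6
    · change 0 < w.w ((a : E) * b) at h6
      omega

variable [FiniteDimensional K E]

/-- The tame bound: if all traces `Tr (x z)`, `z` integral over `ℂ[θ]`, are polynomials in `θ`
then `θ x` has positive value at every place where `θ` has. -/
theorem tame {θ : K} (h : Gen θ) {x : E} (hx0 : x ≠ 0)
    (hx : ∀ z ∈ Og E θ, Algebra.trace K E (x * z) ∈ Ag θ) (w : CVal E)
    (hw : 0 < w.w (algebraMap K E θ)) : 1 ≤ w.w x + w.w (algebraMap K E θ) := by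
  classical
  by_contra hcon
  push Not at hcon
  have := h.pid
  have := h.frac
  have : CharZero K := charZeroK
  have : IsDedekindDomain (Og E θ) := integralClosure.isDedekindDomain (Ag θ) K E
  have : IsFractionRing (Og E θ) E := integralClosure.isFractionRing_of_finite_extension K E
  have h0 : algebraMap K E θ ≠ 0 := (map_ne_zero_iff _ (algebraMap K E).injective).2 h.ne_zero
  let T : Og E θ := ⟨algebraMap K E θ, algebraMap_mem_Og (th_mem θ)⟩
  have hT0 : T ≠ 0 := fun hh => h0 (congrArg Subtype.val hh)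
  let P : Ideal (Og E θ) := ctr w hw.le
  have hPp : P.IsPrime := ctr_prime w hw.le
  have hTP : T ∈ P := Or.inr hw
  have hPb : P ≠ ⊥ := fun hh => hT0 (by rw [hh] at hTP; exact hTP)
  have hPm : P.IsMaximal := hPp.isMaximal hPb
  let v : IsDedekindDomain.HeightOneSpectrum (Og E θ) := ⟨P, hPp, hPb⟩
  -- factorisation of `T`
  have hfin : FiniteMultiplicity P (Ideal.span {T}) :=
    FiniteMultiplicity.of_prime_left v.prime (by
      rw [Ne, Ideal.zero_eq_bot, Ideal.span_singleton_eq_bot]; exact hT0)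
  obtain ⟨J, hJ, hPJ⟩ := hfin.exists_eq_pow_mul_and_not_dvd
  set e := multiplicity P (Ideal.span {T}) with he
  have he1 : e ≠ 0 := by
    intro hh
    rw [hh, pow_zero, one_mul] at hJ
    apply hPJ
    rw [← hJ, Ideal.dvd_iff_le, Ideal.span_singleton_le_iff_mem]
    exact hTP
  have hcop : IsCoprime (P ^ e) J := by
    apply IsCoprime.pow_left
    rw [Ideal.isCoprime_iff_sup_eq]
    by_contra hne
    have h1 : P = P ⊔ J := hPm.eq_of_le hne le_sup_left
    apply hPJ
    rw [Ideal.dvd_iff_le, h1]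
    exact le_sup_right
  obtain ⟨a, haP, ε, hεJ, haε⟩ := Ideal.isCoprime_iff_exists.1 hcop
  have hPe : P ^ e ≤ P := Ideal.pow_le_self he1
  have hεP : ε ∉ P := by
    intro hh
    apply hPp.ne_top
    rw [Ideal.eq_top_iff_one, ← haε]
    exact P.add_mem (hPe haP) hh
  -- an element `q = θ x p` outside of `P`
  have hθx : algebraMap K E θ * x ≠ 0 := mul_ne_zero h0 hx0
  have hq : ∃ q p : Og E θ, q ∉ P ∧ (q : E) = algebraMap K E θ * x * p := by
    obtain ⟨n, d, hnd⟩ := v.exists_primeCompl_mul_eq_or_mul_eq (K := E) (algebraMap K E θ * x)⁻¹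
    have hdP : (d : Og E θ) ∉ P := d.2
    have hd := (not_mem_ctr w hw.le).1 hdP
    rcases hnd with hnd | hnd
    · refine ⟨d, n, hdP, ?_⟩
      change (algebraMap K E θ * x)⁻¹ * ((d : Og E θ) : E) = (n : E) at hnd
      rw [← hnd, ← mul_assoc, mul_inv_cancel₀ hθx, one_mul]
    · change (algebraMap K E θ * x)⁻¹ * (n : E) = ((d : Og E θ) : E) at hnd
      have hn0 : (n : E) ≠ 0 := by
        intro hh
        rw [hh, mul_zero] at hnd
        exact hd.1 hnd.symm
      have h1 := w.map_mul _ _ (inv_ne_zero hθx) hn0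
      rw [hnd, hd.2, cv_inv w _ hθx, w.map_mul _ _ h0 hx0] at h1
      have h2 := (Og_le_vs w hw.le n.2).resolve_left hn0
      have h3 : w.w (n : E) = 0 := by omega
      refine ⟨n, d, (not_mem_ctr w hw.le).2 ⟨hn0, h3⟩, ?_⟩
      rw [← hnd, ← mul_assoc, mul_inv_cancel₀ hθx, one_mul]
  obtain ⟨q, p, hqP, hqp⟩ := hq
  have hcop2 : IsCoprime (Ideal.span {q}) (P ^ e) := by
    apply IsCoprime.pow_right
    rw [Ideal.isCoprime_iff_sup_eq]
    by_contra hne
    have h1 : P = Ideal.span {q} ⊔ P := hPm.eq_of_le hne le_sup_right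
    apply hqP
    rw [h1]
    exact Ideal.mem_sup_left (Ideal.mem_span_singleton_self q)
  obtain ⟨q', hq', a', ha', hqa⟩ := Ideal.isCoprime_iff_exists.1 hcop2
  obtain ⟨r, rfl⟩ := Ideal.mem_span_singleton'.1 hq'
  -- the element `t`
  let t : Og E θ := r * q * ε
  have hmul : ∀ {u v : Og E θ}, u ∈ P ^ e → v ∈ J → ∃ z : Og E θ, u * v = T * z := by
    intro u v hu hv
    have h1 : u * v ∈ Ideal.span {T} := by rw [hJ]; exact Ideal.mul_mem_mul hu hv
    obtain ⟨z, hz⟩ := Ideal.mem_span_singleton'.1 h1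
    exact ⟨z, by rw [← hz, mul_comm]⟩
  obtain ⟨z1, hz1⟩ := hmul ha' hεJ
  obtain ⟨z2, hz2⟩ := hmul haP hεJ
  have ht1 : t = ε - T * z1 := by
    have : r * q = 1 - a' := by rw [← hqa]; ring
    simp only [t]
    rw [this, sub_mul, one_mul, hz1]
  have ht2 : t * t - t = T * (-(z2) - z1 * t - z1 * ε + z1) := by
    have h1 : ε * ε - ε = - (T * z2) := by
      rw [← hz2]
      have : a = 1 - ε := by rw [← haε]; ring
      rw [this]
      ring
    have h2 : t * t - t = (ε * ε - ε) - T * z1 * ε - T * z1 * t + T * z1 := by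
      have : t * t = ε * ε - T * z1 * ε - T * z1 * t := by
        have h3 : t * t = (ε - T * z1) * t := by rw [← ht1]
        rw [h3, sub_mul]
        congr 1
        conv_lhs => rw [ht1]
        ring
      rw [this]
      conv_lhs =>
        rw [show ε * ε - T * z1 * ε - T * z1 * t - t = ε * ε - T * z1 * ε - T * z1 * t - t from rfl]
      rw [show (ε * ε - ε) - T * z1 * ε - T * z1 * t + T * z1 =
        ε * ε - T * z1 * ε - T * z1 * t - (ε - T * z1) by ring, ← ht1]
    rw [h2, h1]
    ring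
  have hsm : ∀ z : Og E θ, ((T * z : Og E θ) : E) = θ • (z : E) := by
    intro z
    rw [Algebra.smul_def]
    rfl
  obtain ⟨b, d, hb, -, hb', -⟩ := exists_reduced (E := E) h
  have htr : ∃ a ∈ Ag θ, Algebra.trace K E (t : E) = θ * a := by
    refine ⟨Algebra.trace K E (x * ((p * r * ε : Og E θ) : E)), hx _ (p * r * ε : Og E θ).2, ?_⟩
    have h1 : (t : E) = θ • (x * ((p * r * ε : Og E θ) : E)) := by
      rw [Algebra.smul_def]
      change (r : E) * (q : E) * (ε : E) = algebraMap K E θ * (x * ((p : E) * (r : E) * (ε : E)))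
      rw [hqp]
      ring
    rw [h1, map_smul, smul_eq_mul]
  obtain ⟨z3, hz3, hz3'⟩ := trace_idem h b hb hb' t.2
    ⟨_, (-(z2) - z1 * t - z1 * ε + z1 : Og E θ).2, by
      rw [← hsm, ← ht2]; rfl⟩ htr
  have htT : t = T * ⟨z3, hz3⟩ := Subtype.ext (by rw [hsm]; exact hz3')
  have htP : t ∈ P := by rw [htT]; exact P.mul_mem_right _ hTP
  apply hεP
  have : ε = t + T * z1 := by rw [ht1]; ring
  rw [this]
  exact P.add_mem htP (P.mul_mem_right _ hTP)

end

end G0

end LCY
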