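import Pool.Agent.Helper84.LCY.G0f

/-!
Block GENUS0, part g: assembly, with the minimal degree lemma as a hypothesis.
-/

open Polynomial IntermediateField Module

set_option linter.unusedSectionVars false

namespace LCY

namespace G0

noncomputable section

/-- The minimal degree lemma (proved by helper69). -/
def ST_MINDEG : Prop := ∀ (E : Type) [Field E] [Algebra ℂ E] (s b : E), Transcendental ℂ s →
  FiniteDimensional (IntermediateField.adjoin ℂ {s}) E →
  IsIntegral (Algebra.adjoin ℂ {s}) b → IsIntegral (Algebra.adjoin ℂ {s⁻¹}) (s⁻¹ * b) →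
  b ∉ IntermediateField.adjoin ℂ {s} →
  ∃ f : E, Transcendental ℂ f ∧
    finrank (IntermediateField.adjoin ℂ {f}) E < finrank (IntermediateField.adjoin ℂ {s}) E

section

variable {K : Type*} [Field K] [Algebra ℂ K]
variable {E : Type*} [Field E] [Algebra ℂ E] [Algebra K E] [IsScalarTower ℂ K E]

lemma mem_Og_of_le {θ θ' : K} (h : Ag θ ≤ Ag θ') {z : E} (hz : z ∈ Og E θ) : z ∈ Og E θ' := by
  obtain ⟨p, hpm, hp⟩ := hz
  refine ⟨p.map (Subalgebra.inclusion h).toRingHom, hpm.map _, ?_⟩
  rw [eval₂_map]
  exact hp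

end

variable {E : Type} [Field E] [Algebra ℂ E]

/-- The generator of `ℂ(s)`. -/
lemma gen_adjoin {s : E} (hs : Transcendental ℂ s) :
    Gen (IntermediateField.AdjoinSimple.gen ℂ s) := by
  refine ⟨?_, ?_⟩
  · intro hh
    apply hs
    have := hh.algebraMap (A := E)
    simpa using this
  · have h1 : IntermediateField.lift
        (IntermediateField.adjoin ℂ {IntermediateField.AdjoinSimple.gen ℂ s}) =
        IntermediateField.lift (⊤ : IntermediateField ℂ (IntermediateField.adjoin ℂ {s})) := by
      rw [IntermediateField.lift_top, IntermediateField.lift_adjoin, Set.image_singleton]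
      rfl
    exact IntermediateField.lift_injective _ h1

lemma isIntegral_adjoin {s : E} {θ : IntermediateField.adjoin ℂ {s}} {t : E} (hθ : (θ : E) = t)
    {z : E} (hz : z ∈ Og E θ) : IsIntegral (Algebra.adjoin ℂ {t}) z := by
  have hle : ∀ a : Ag θ, (algebraMap (IntermediateField.adjoin ℂ {s}) E) (a : _) ∈
      Algebra.adjoin ℂ {t} := by
    rintro ⟨a, ha⟩
    induction ha using Algebra.adjoin_induction with
    | mem x hx =>
      rw [Set.mem_singleton_iff] at hx
      subst hx
      have : (algebraMap (IntermediateField.adjoin ℂ {s}) E) x = t := hθ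
      rw [this]
      exact Algebra.self_mem_adjoin_singleton ℂ t
    | algebraMap c =>
      exact (Algebra.adjoin ℂ {t}).algebraMap_mem c
    | add x y _ _ hx hy => rw [map_add]; exact add_mem hx hy
    | mul x y _ _ hx hy => rw [map_mul]; exact mul_mem hx hy
  let f : Ag θ →+* Algebra.adjoin ℂ {t} :=
    ((algebraMap (IntermediateField.adjoin ℂ {s}) E).comp (Ag θ).val.toRingHom).codRestrict
      (Algebra.adjoin ℂ {t}).toSubring hle
  obtain ⟨p, hpm, hp⟩ := hz
  refine ⟨p.map f, hpm.map f, ?_⟩
  rw [eval₂_map]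
  exact hp

/-- Regular differentials on a field which is not rational, if the degree over `ℂ(s)` is
minimal. -/
theorem regDiff_of_min (hMD : ST_MINDEG) {s : E} (hs : Transcendental ℂ s)
    (hfd : FiniteDimensional (IntermediateField.adjoin ℂ {s}) E)
    (hmin : ∀ f : E, Transcendental ℂ f →
      finrank (IntermediateField.adjoin ℂ {s}) E ≤ finrank (IntermediateField.adjoin ℂ {f}) E)
    (hn : 2 ≤ finrank (IntermediateField.adjoin ℂ {s}) E) : ∃ φ : E, RegDiff E φ s := by
  classical
  let K := IntermediateField.adjoin ℂ {s}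
  let θ : K := IntermediateField.AdjoinSimple.gen ℂ s
  have hG : Gen θ := gen_adjoin hs
  have hθs : algebraMap K E θ = s := IntermediateField.AdjoinSimple.algebraMap_gen ℂ s
  obtain ⟨b, d, hb1, hb2, hb3, hb4⟩ := exists_reduced (E := E) hG
  by_cases hd : ∃ i, 2 ≤ d i
  · obtain ⟨i, hi⟩ := hd
    obtain ⟨x, hx0, hx1, hx2⟩ := exists_dual b d hb3 hb4 hG.ne_zero i hi
    refine ⟨x, hx0, hs, fun w => ⟨fun c hc => ?_, fun hw => ?_⟩⟩
    · have hc' : algebraMap K E (θ - algebraMap ℂ K c) = s - algebraMap ℂ E c := by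
        rw [map_sub, hθs, ← IsScalarTower.algebraMap_apply]
      rw [← hc'] at hc ⊢
      apply tame (hG.sub c) hx0 _ w hc
      intro z hz
      have h1 := hx1 z (mem_Og_of_le (Ag_sub θ c).le hz)
      rw [Ag_sub]
      exact h1
    · have hs0 : s ≠ 0 := fun hh => hs (hh ▸ isAlgebraic_zero)
      have hinv : algebraMap K E θ⁻¹ = s⁻¹ := by rw [map_inv₀, hθs]
      have h1 : 0 < w.w (algebraMap K E θ⁻¹) := by
        rw [hinv, cv_inv w s hs0]
        omega
      have hx' : θ ^ 2 • x = s ^ 2 * x := by rw [Algebra.smul_def, map_pow, hθs]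
      have h2 := tame hG.inv (x := θ ^ 2 • x) (by rw [hx']; exact mul_ne_zero (pow_ne_zero _ hs0) hx0)
        hx2 w h1
      rw [hx', hinv, cv_inv w s hs0, w.map_mul _ _ (pow_ne_zero _ hs0) hx0, pow_two,
        w.map_mul _ _ hs0 hs0] at h2
      omega
  · exfalso
    push Not at hd
    have hex : ∃ i, b i ∉ IntermediateField.adjoin ℂ {s} := by
      by_contra hcon
      push Not at hcon
      have h1 : finrank K E ≤ 1 := by
        apply finrank_le_one (1 : E)
        intro z
        refine ⟨∑ i, b.repr z i * ⟨b i, hcon i⟩, ?_⟩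
        conv_rhs => rw [← b.sum_repr z]
        rw [Finset.sum_smul]
        refine Finset.sum_congr rfl fun i _ => ?_
        rw [mul_smul]
        congr 1
        rw [Algebra.smul_def, mul_one]
        rfl
      have h2 : 2 ≤ finrank K E := hn
      omega
    obtain ⟨i, hi⟩ := hex
    have h0 := hG.ne_zero
    have h1 : (θ⁻¹) • b i ∈ Og E θ⁻¹ := by
      have h2 := hb2 i
      have h3 : d i = 0 ∨ d i = 1 := by have := hd i; omega
      rcases h3 with h3 | h3
      · rw [h3, pow_zero, one_smul] at h2
        exact smul_mem_Og (th_mem _) h2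
      · rwa [h3, pow_one] at h2
    obtain ⟨f, hf, hlt⟩ := hMD E s (b i) hs hfd (isIntegral_adjoin (θ := θ) hθs (hb1 i))
      (by
        have h4 := isIntegral_adjoin (θ := θ⁻¹) (t := s⁻¹)
          (by change algebraMap K E θ⁻¹ = s⁻¹; rw [map_inv₀, hθs]) h1
        rw [Algebra.smul_def, map_inv₀, hθs] at h4
        exact h4) hi
    have := hmin f hf
    omega

end

end G0

end LCY
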