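import Pool.Agent.Helper84.LCY.Qs
import Pool.Agent.Helper62.LCY.B2

/-!
Row QD of the block SURF (MP_f7e214_ag): the quadratic transformation at the first three points.
-/

open Polynomial Pool.Agent.Helper82.LCY

namespace LCY

namespace H84

noncomputable section

variable {L : Type} [Field L] [Algebra ℂ L]

theorem isOrd_of_mul {R : Subalgebra ℂ L} {v : DVal L} (h : mul R v = -1) : IsOrd R v := by
  unfold mul at h
  split_ifs at h with h1 h2
  exact h1

theorem through_of_mul {R : Subalgebra ℂ L} {v : DVal L} (h : mul R v = 1) :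
    ¬ IsOrd R v ∧ Through R v := by
  unfold mul at h
  split_ifs at h with h1 h2
  · exact ⟨h1, h2⟩
  · omega

theorem mul_of_ord {R : Subalgebra ℂ L} {v : DVal L} (h : IsOrd R v) : mul R v = -1 := by
  unfold mul
  rw [if_pos h]

theorem mul_ge {R : Subalgebra ℂ L} {v : DVal L} : -1 ≤ mul R v := by
  unfold mul
  split_ifs <;> omega

theorem deg_nonneg {S : Coord L} {v : DVal L} : 0 ≤ deg S v := by
  unfold deg
  split_ifs <;> omega

theorem planeCur_of_deg {S : Coord L} {v : DVal L} (h : deg S v = 1) : PlaneCur S v := by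
  unfold deg at h
  split_ifs at h with h1
  · exact Or.inl h1
  · right
    have h2 : sInf {n : ℕ | ∃ g : ℂ[X][X], IsAdic S g v ∧ tdeg g = n} = 1 := by exact_mod_cast h
    have h3 : {n : ℕ | ∃ g : ℂ[X][X], IsAdic S g v ∧ tdeg g = n}.Nonempty := by
      by_contra hcon
      rw [Set.not_nonempty_iff_eq_empty] at hcon
      rw [hcon, Nat.sInf_empty] at h2
      omega
    obtain ⟨n, g, hg, -⟩ := h3
    exact ⟨g, hg⟩

theorem centred_ord (P : Coord L) : Centred P.loc P.ord := by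
  refine ⟨fun z hz => H62.loc_int hz, fun z hz h0 h1 => ?_⟩
  rcases H62.loc_cases hz with h2 | h2
  · exact h2.1.resolve_left h0
  · exact absurd h2.2.2 h1

theorem next_loc {R R' : Subalgebra ℂ L} (h : Next R R') :
    (∃ P : Coord L, P.loc = R) ∧ ∃ Q : Coord L, Q.loc = R' := by
  obtain ⟨P, Q, hP, hQ, -, -⟩ := h
  exact ⟨⟨P, hP⟩, Q, hQ⟩

theorem plane_loc {S : Coord L} {R : Subalgebra ℂ L} (h : R ∈ plane S) :
    ∃ Q : Coord L, Q.loc = R := by
  obtain ⟨A, Q, -, hQ, -, -⟩ := h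
  exact ⟨Q, hQ⟩

/-- Points near two points do not exist. -/
theorem next_unique (h13 : ST_A13) (h14 : ST_A14) {k : ℕ} (T : PStr L k) (j : ℕ)
    {R R' R2 : Subalgebra ℂ L} (hR : R ∈ surf T.S T.R j) (hR' : R' ∈ surf T.S T.R j)
    (h1 : Next R R2) (h2 : Next R' R2) : R = R' := by
  obtain ⟨-, Q, hQ⟩ := next_loc h1
  have hc : Centred R2 Q.ord := hQ ▸ centred_ord Q
  obtain ⟨a1, a2, a3, a4, a5⟩ := h13 L R R2 Q.ord h1
  obtain ⟨b1, b2, b3, b4, b5⟩ := h13 L R' R2 Q.ord h2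
  exact h14 L k T j R R' Q.ord hR hR' (a3 hc) (b3 hc).1

/-- A curve through a point of the plane is a curve of the plane. -/
theorem planeCur_of_through (h17 : ST_A17) {S : Coord L} {R : Subalgebra ℂ L} {v : DVal L}
    (hR : R ∈ plane S) (hv : Through R v) : PlaneCur S v := by
  let T0 : PStr L 0 := ⟨S, fun i => i.elim0, fun i => i.elim0⟩
  have h1 : T0.Cur v := ⟨R, hR, hv⟩
  rcases (h17 L 0 T0 v).1 h1 with h | ⟨i, -⟩
  · exact h
  · exact i.elim0

/-- The multiplicity of a curve through the point is at least one. -/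
theorem mul_pos (h6 : ST_A6) (h7 : ST_A7) {R : Subalgebra ℂ L} (hR : ∃ P : Coord L, P.loc = R)
    {v : DVal L} (hv : Through R v) : 1 ≤ mul R v := by
  obtain ⟨P, rfl⟩ := hR
  obtain ⟨g, hg, hg0⟩ := (h6 L P v).1 hv
  obtain ⟨h1, h2⟩ := h7 L P v g hg hg0
  rw [h1]
  exact_mod_cast h2

/-- Change of the affine coordinates of the plane. -/
theorem change_plane {k : ℕ} (T : PStr L k) (S0 : Coord L) (h : SamePlane T.S S0) :
    ∃ T0 : PStr L k, T0.S = S0 ∧ T0.R = T.R ∧ T0.X = T.X ∧ ∀ v, T0.cl v = T.cl v := by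
  have h1 : ∀ j, surf S0 T.R j = surf T.S T.R j := by
    intro j
    induction j with
    | zero => exact h.1
    | succ j ih =>
      simp only [surf]
      rw [ih]
  refine ⟨⟨S0, T.R, fun i => by rw [h1]; exact T.valid i⟩, rfl, rfl, h1 k, fun v => ?_⟩
  unfold PStr.cl
  rw [h.2 v]

/-- Existence of the quadratic transformation for a structure. -/
def QOK {k : ℕ} (T : PStr L (k + 3)) : Prop :=
  ∃ T' : PStr L (k + 3), T'.X = T.X ∧ ∀ v, T.Cur v → T'.cl v = quad (T.cl v)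

theorem qok_of_std (hQS : ST_QS) {k : ℕ} (T : PStr L (k + 3)) (S0 S' : Coord L)
    (h : SamePlane T.S S0)
    (hs : StdA S0 S' (fst3 T.R) ∨ StdB S0 S' (fst3 T.R) ∨ StdC S0 S' (fst3 T.R)) : QOK T := by
  obtain ⟨T0, h1, h2, h3, h4⟩ := change_plane T S0 h
  obtain ⟨T', h5, h6, h7⟩ := hQS L k T0 S' (by rw [h1, h2]; exact hs)
  refine ⟨T', h6.trans h3, fun v hv => ?_⟩
  have hv0 : T0.Cur v := by
    unfold PStr.Cur
    rw [h3]
    exact hv
  rw [h7 v hv0, h4]

theorem quad_invol {k : ℕ} (c : Cl ℤ (Fin (k + 3))) : quad (quad c) = c := by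
  have e10 : (1 : Fin (k + 3)) ≠ 0 := by
    rw [← castLE_one', ← castLE_zero', Ne, Fin.ext_iff]
    simp
  have e20 : (2 : Fin (k + 3)) ≠ 0 := by
    rw [← castLE_two', ← castLE_zero', Ne, Fin.ext_iff]
    simp
  have e21 : (2 : Fin (k + 3)) ≠ 1 := by
    rw [← castLE_two', ← castLE_one', Ne, Fin.ext_iff]
    simp
  refine Prod.ext ?_ (funext fun i => ?_)
  · simp only [quad, if_true, if_neg e10, if_neg e20, if_neg e21]
    ring
  · simp only [quad, if_true, if_neg e10, if_neg e20, if_neg e21]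
    split_ifs with h1 h2 h3
    · rw [h1]; ring
    · rw [h2]; ring
    · rw [h3]; ring
    · rfl

/-- Permutation of the coordinates of a class. -/
def pm {k : ℕ} (σ : Equiv.Perm (Fin k)) (c : Cl ℤ (Fin k)) : Cl ℤ (Fin k) :=
  (c.1, fun i => c.2 (σ i))

theorem ne10 (k : ℕ) : (1 : Fin (k + 3)) ≠ 0 := by
  rw [← castLE_one', ← castLE_zero', Ne, Fin.ext_iff]
  simp

theorem ne20 (k : ℕ) : (2 : Fin (k + 3)) ≠ 0 := by
  rw [← castLE_two', ← castLE_zero', Ne, Fin.ext_iff]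
  simp

theorem ne21 (k : ℕ) : (2 : Fin (k + 3)) ≠ 1 := by
  rw [← castLE_two', ← castLE_one', Ne, Fin.ext_iff]
  simp

theorem quad_pm01 {k : ℕ} (c : Cl ℤ (Fin (k + 3))) :
    quad (pm (Equiv.swap 0 1) c) = pm (Equiv.swap 0 1) (quad c) := by
  have e10 := ne10 k
  have e20 := ne20 k
  have e21 := ne21 k
  have s0 : (Equiv.swap (0 : Fin (k + 3)) 1) 0 = 1 := Equiv.swap_apply_left _ _
  have s1 : (Equiv.swap (0 : Fin (k + 3)) 1) 1 = 0 := Equiv.swap_apply_right _ _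
  have s2 : (Equiv.swap (0 : Fin (k + 3)) 1) 2 = 2 := Equiv.swap_apply_of_ne_of_ne e20 e21
  refine Prod.ext ?_ (funext fun i => ?_)
  · simp only [quad, pm, s0, s1, s2]
    ring
  · simp only [quad, pm, s0, s1, s2]
    by_cases h0 : i = 0
    · subst h0
      rw [if_pos rfl, s0, if_neg e10, if_pos rfl]
    by_cases h1 : i = 1
    · subst h1
      rw [if_neg e10, if_pos rfl, s1, if_pos rfl]
    by_cases h2 : i = 2
    · subst h2
      rw [if_neg e20, if_neg e21, if_pos rfl, s2, if_neg e20, if_neg e21, if_pos rfl]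
      ring
    · rw [Equiv.swap_apply_of_ne_of_ne h0 h1, if_neg h0, if_neg h1, if_neg h2, if_neg h0,
        if_neg h1, if_neg h2]

theorem quad_pm12 {k : ℕ} (c : Cl ℤ (Fin (k + 3))) :
    quad (pm (Equiv.swap 1 2) c) = pm (Equiv.swap 1 2) (quad c) := by
  have e10 := ne10 k
  have e20 := ne20 k
  have e21 := ne21 k
  have s0 : (Equiv.swap (1 : Fin (k + 3)) 2) 0 = 0 :=
    Equiv.swap_apply_of_ne_of_ne e10.symm e20.symm
  have s1 : (Equiv.swap (1 : Fin (k + 3)) 2) 1 = 2 := Equiv.swap_apply_left _ _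
  have s2 : (Equiv.swap (1 : Fin (k + 3)) 2) 2 = 1 := Equiv.swap_apply_right _ _
  refine Prod.ext ?_ (funext fun i => ?_)
  · simp only [quad, pm, s0, s1, s2]
    ring
  · simp only [quad, pm, s0, s1, s2]
    by_cases h0 : i = 0
    · subst h0
      rw [if_pos rfl, s0, if_pos rfl]
      ring
    by_cases h1 : i = 1
    · subst h1
      rw [if_neg e10, if_pos rfl, s1, if_neg e20, if_neg e21, if_pos rfl]
    by_cases h2 : i = 2
    · subst h2
      rw [if_neg e20, if_neg e21, if_pos rfl, s2, if_neg e10, if_pos rfl]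
    · rw [Equiv.swap_apply_of_ne_of_ne h1 h2, if_neg h0, if_neg h1, if_neg h2, if_neg h0,
        if_neg h1, if_neg h2]

theorem pm_pm {k : ℕ} (a b : Fin k) (c : Cl ℤ (Fin k)) :
    pm (Equiv.swap a b) (pm (Equiv.swap a b) c) = c := by
  unfold pm
  simp

/-- The result of an allowed swap. -/
theorem swap01 (hSW : ST_SW) {k : ℕ} (T : PStr L (k + 3)) (h : ¬ Next (T.R 0) (T.R 1)) :
    ∃ Ts : PStr L (k + 3), Ts.S = T.S ∧ Ts.X = T.X ∧ Ts.R = T.R ∘ Equiv.swap 0 1 ∧
      ∀ v, Ts.cl v = pm (Equiv.swap 0 1) (T.cl v) := by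
  have e0 : (⟨0, by omega⟩ : Fin (k + 3)) = 0 := rfl
  have e1 : (⟨0 + 1, by omega⟩ : Fin (k + 3)) = 1 := by
    rw [← castLE_one']; ext; simp
  obtain ⟨Ts, h1, h2, h3⟩ := hSW L (k + 3) T 0 (by omega) (by rw [e0, e1]; exact h)
  rw [e0, e1] at h3
  refine ⟨Ts, h1, h2, h3, fun v => ?_⟩
  unfold PStr.cl pm
  rw [h1, h3]
  rfl

theorem swap12 (hSW : ST_SW) {k : ℕ} (T : PStr L (k + 3)) (h : ¬ Next (T.R 1) (T.R 2)) :
    ∃ Ts : PStr L (k + 3), Ts.S = T.S ∧ Ts.X = T.X ∧ Ts.R = T.R ∘ Equiv.swap 1 2 ∧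
      ∀ v, Ts.cl v = pm (Equiv.swap 1 2) (T.cl v) := by
  have e1 : (⟨1, by omega⟩ : Fin (k + 3)) = 1 := by
    rw [← castLE_one']; ext; simp
  have e2 : (⟨1 + 1, by omega⟩ : Fin (k + 3)) = 2 := by
    rw [← castLE_two']; ext; simp
  obtain ⟨Ts, h1, h2, h3⟩ := hSW L (k + 3) T 1 (by omega) (by rw [e1, e2]; exact h)
  rw [e1, e2] at h3
  refine ⟨Ts, h1, h2, h3, fun v => ?_⟩
  unfold PStr.cl pm
  rw [h1, h3]
  rfl

theorem lt01 (k : ℕ) : (0 : Fin (k + 3)) < 1 := by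
  rw [Fin.lt_def, ← castLE_one', Fin.val_castLE]
  change 0 < 1
  omega

theorem lt12 (k : ℕ) : (1 : Fin (k + 3)) < 2 := by
  rw [Fin.lt_def, ← castLE_two', ← castLE_one', Fin.val_castLE, Fin.val_castLE]
  change 1 < 2
  omega

theorem lt02 (k : ℕ) : (0 : Fin (k + 3)) < 2 := lt_trans (lt01 k) (lt12 k)

/-- Conjugation with the swap of the first two points. -/
theorem conj01 (h13 : ST_A13) (h17 : ST_A17) (h18 : ST_A18) (hSW : ST_SW) {k : ℕ}
    (T Ts : PStr L (k + 3)) (hX : Ts.X = T.X) (hR : Ts.R = T.R ∘ Equiv.swap 0 1)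
    (hcl : ∀ v, Ts.cl v = pm (Equiv.swap 0 1) (T.cl v)) (hq : QOK Ts) : QOK T := by
  obtain ⟨U, hUX, hU⟩ := hq
  have s0 : (Equiv.swap (0 : Fin (k + 3)) 1) 0 = 1 := Equiv.swap_apply_left _ _
  have s1 : (Equiv.swap (0 : Fin (k + 3)) 1) 1 = 0 := Equiv.swap_apply_right _ _
  have hcur : ∀ v, T.Cur v → Ts.Cur v := by
    intro v hv
    unfold PStr.Cur
    rw [hX]
    exact hv
  have hn : ¬ Next (U.R 0) (U.R 1) := by
    intro hN
    obtain ⟨⟨P, hP⟩, -⟩ := next_loc hN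
    have ho : IsOrd (U.R 0) P.ord := hP ▸ isOrd_ord P
    obtain ⟨-, hm⟩ := (h13 L _ _ P.ord hN).2.2.2.2 ho
    obtain ⟨-, b2, b3, b4, b5⟩ := h18 L _ U 0 P.ord ho
    have hUc : U.Cur P.ord := (h17 L _ U P.ord).2 (Or.inr ⟨0, ho⟩)
    have hTc : Ts.Cur P.ord := by
      unfold PStr.Cur at hUc ⊢
      rwa [hUX] at hUc
    have h1 : Ts.cl P.ord = quad (U.cl P.ord) := by rw [hU _ hTc, quad_invol]
    have c1 : (U.cl P.ord).1 = 0 := b2
    have c2 : (U.cl P.ord).2 0 = -1 := mul_of_ord ho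
    have c3 : (U.cl P.ord).2 1 = 1 := hm
    have c4 : (U.cl P.ord).2 2 = 0 ∨ (U.cl P.ord).2 2 = 1 := b5 2 (lt02 k)
    have d1 : (Ts.cl P.ord).1 = -(U.cl P.ord).2 2 := by
      rw [h1]
      simp only [quad]
      rw [c1, c2, c3]
      ring
    have d2 : (U.cl P.ord).2 2 = 0 := by
      rcases c4 with h | h
      · exact h
      · have : 0 ≤ (Ts.cl P.ord).1 := deg_nonneg
        omega
    have d3 : (Ts.cl P.ord).2 0 = -1 := by
      rw [h1]
      simp only [quad]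
      rw [if_true, c1, c3, d2]
      ring
    have d4 : (Ts.cl P.ord).2 1 = 1 := by
      rw [h1]
      simp only [quad]
      rw [if_neg (ne10 k), if_true, c1, c2, d2]
      ring
    have f1 : IsOrd (T.R 1) P.ord := by
      have := isOrd_of_mul d3
      rwa [hR, Function.comp_apply, s0] at this
    have f2 : Through (T.R 0) P.ord := by
      have := (through_of_mul d4).2
      rwa [hR, Function.comp_apply, s1] at this
    exact (h18 L _ T 1 P.ord f1).2.2.2.1 0 (lt01 k) f2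
  obtain ⟨V, -, hVX, -, hV⟩ := swap01 hSW U hn
  refine ⟨V, (hVX.trans hUX).trans hX, fun v hv => ?_⟩
  rw [hV, hU v (hcur v hv), hcl, quad_pm01, pm_pm]

/-- Conjugation with the swap of the second and the third point. -/
theorem conj12 (h13 : ST_A13) (h17 : ST_A17) (h18 : ST_A18) (hSW : ST_SW) {k : ℕ}
    (T Ts : PStr L (k + 3)) (hX : Ts.X = T.X) (hR : Ts.R = T.R ∘ Equiv.swap 1 2)
    (hcl : ∀ v, Ts.cl v = pm (Equiv.swap 1 2) (T.cl v)) (hq : QOK Ts) : QOK T := by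
  obtain ⟨U, hUX, hU⟩ := hq
  have s1 : (Equiv.swap (1 : Fin (k + 3)) 2) 1 = 2 := Equiv.swap_apply_left _ _
  have s2 : (Equiv.swap (1 : Fin (k + 3)) 2) 2 = 1 := Equiv.swap_apply_right _ _
  have hcur : ∀ v, T.Cur v → Ts.Cur v := by
    intro v hv
    unfold PStr.Cur
    rw [hX]
    exact hv
  have hn : ¬ Next (U.R 1) (U.R 2) := by
    intro hN
    obtain ⟨⟨P, hP⟩, -⟩ := next_loc hN
    have ho : IsOrd (U.R 1) P.ord := hP ▸ isOrd_ord P
    obtain ⟨-, hm⟩ := (h13 L _ _ P.ord hN).2.2.2.2 ho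
    obtain ⟨-, b2, b3, b4, b5⟩ := h18 L _ U 1 P.ord ho
    have hUc : U.Cur P.ord := (h17 L _ U P.ord).2 (Or.inr ⟨1, ho⟩)
    have hTc : Ts.Cur P.ord := by
      unfold PStr.Cur at hUc ⊢
      rwa [hUX] at hUc
    have h1 : Ts.cl P.ord = quad (U.cl P.ord) := by rw [hU _ hTc, quad_invol]
    have c1 : (U.cl P.ord).1 = 0 := b2
    have c2 : (U.cl P.ord).2 1 = -1 := mul_of_ord ho
    have c3 : (U.cl P.ord).2 2 = 1 := hm
    have c4 : (U.cl P.ord).2 0 = 0 := by
      apply mul_zero_of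
      · intro hh
        exact ne10 k (b3 0 hh).symm
      · exact b4 0 (lt01 k)
    have d3 : (Ts.cl P.ord).2 1 = -1 := by
      rw [h1]
      simp only [quad]
      rw [if_neg (ne10 k), if_true, c1, c4, c3]
      ring
    have d4 : (Ts.cl P.ord).2 2 = 1 := by
      rw [h1]
      simp only [quad]
      rw [if_neg (ne20 k), if_neg (ne21 k), if_true, c1, c4, c2]
      ring
    have f1 : IsOrd (T.R 2) P.ord := by
      have := isOrd_of_mul d3
      rwa [hR, Function.comp_apply, s1] at this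
    have f2 : Through (T.R 1) P.ord := by
      have := (through_of_mul d4).2
      rwa [hR, Function.comp_apply, s2] at this
    exact (h18 L _ T 2 P.ord f1).2.2.2.1 1 (lt12 k) f2
  obtain ⟨V, -, hVX, -, hV⟩ := swap12 hSW U hn
  refine ⟨V, (hVX.trans hUX).trans hX, fun v hv => ?_⟩
  rw [hV, hU v (hcur v hv), hcl, quad_pm12, pm_pm]

/-- The hypotheses of the quadratic transformation. -/
def Good {k : ℕ} (T : PStr L (k + 3)) : Prop :=
  (∀ v, T.Cur v → ip KK (T.cl v) ≤ 0) ∧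
  ∀ v, T.Cur v → ¬ ((T.cl v).1 = 1 ∧ (T.cl v).2 0 = 1 ∧ (T.cl v).2 1 = 1 ∧ (T.cl v).2 2 = 1)

theorem ip_pm {k : ℕ} (σ : Equiv.Perm (Fin k)) (c : Cl ℤ (Fin k)) :
    ip KK (pm σ c) = ip KK c := by
  rw [ip_KK, ip_KK]
  unfold pm
  dsimp only
  rw [Equiv.sum_comp σ c.2]

theorem good_pm01 {k : ℕ} (T Ts : PStr L (k + 3)) (hX : Ts.X = T.X)
    (hcl : ∀ v, Ts.cl v = pm (Equiv.swap 0 1) (T.cl v)) (h : Good T) : Good Ts := by
  have s0 : (Equiv.swap (0 : Fin (k + 3)) 1) 0 = 1 := Equiv.swap_apply_left _ _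
  have s1 : (Equiv.swap (0 : Fin (k + 3)) 1) 1 = 0 := Equiv.swap_apply_right _ _
  have s2 : (Equiv.swap (0 : Fin (k + 3)) 1) 2 = 2 :=
    Equiv.swap_apply_of_ne_of_ne (ne20 k) (ne21 k)
  have hcur : ∀ v, Ts.Cur v → T.Cur v := by
    intro v hv
    unfold PStr.Cur at hv ⊢
    rwa [hX] at hv
  refine ⟨fun v hv => ?_, fun v hv hh => ?_⟩
  · rw [hcl, ip_pm]
    exact h.1 v (hcur v hv)
  · rw [hcl] at hh
    unfold pm at hh
    dsimp only at hh
    rw [s0, s1, s2] at hh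
    exact h.2 v (hcur v hv) ⟨hh.1, hh.2.2.1, hh.2.1, hh.2.2.2⟩

theorem good_pm12 {k : ℕ} (T Ts : PStr L (k + 3)) (hX : Ts.X = T.X)
    (hcl : ∀ v, Ts.cl v = pm (Equiv.swap 1 2) (T.cl v)) (h : Good T) : Good Ts := by
  have s0 : (Equiv.swap (1 : Fin (k + 3)) 2) 0 = 0 :=
    Equiv.swap_apply_of_ne_of_ne (ne10 k).symm (ne20 k).symm
  have s1 : (Equiv.swap (1 : Fin (k + 3)) 2) 1 = 2 := Equiv.swap_apply_left _ _
  have s2 : (Equiv.swap (1 : Fin (k + 3)) 2) 2 = 1 := Equiv.swap_apply_right _ _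
  have hcur : ∀ v, Ts.Cur v → T.Cur v := by
    intro v hv
    unfold PStr.Cur at hv ⊢
    rwa [hX] at hv
  refine ⟨fun v hv => ?_, fun v hv hh => ?_⟩
  · rw [hcl, ip_pm]
    exact h.1 v (hcur v hv)
  · rw [hcl] at hh
    unfold pm at hh
    dsimp only at hh
    rw [s0, s1, s2] at hh
    exact h.2 v (hcur v hv) ⟨hh.1, hh.2.1, hh.2.2.2, hh.2.2.1⟩

theorem noLine (h17 : ST_A17) {k : ℕ} (T : PStr L (k + 3)) (h : Good T) :
    NoLine T.S (fst3 T.R) := by
  intro v hv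
  have h1 : T.Cur v := (h17 L _ T v).2 (Or.inl (planeCur_of_deg hv.1))
  have f1 : T.R 1 = fst3 T.R 1 := by rw [← castLE_one']; rfl
  have f2 : T.R 2 = fst3 T.R 2 := by rw [← castLE_two']; rfl
  refine h.2 v h1 ⟨hv.1, hv.2.1, ?_, ?_⟩
  · change mul (T.R 1) v = 1
    rw [f1]
    exact hv.2.2.1
  · change mul (T.R 2) v = 1
    rw [f2]
    exact hv.2.2.2

/-- The exceptional curve of the first point does not pass through the second and the third. -/
theorem exc_bound (h17 : ST_A17) (h18 : ST_A18) {k : ℕ} (T : PStr L (k + 3)) (h : Good T)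
    {v : DVal L} (ho : IsOrd (T.R 0) v) (h1 : 1 ≤ mul (T.R 1) v) (h2 : 1 ≤ mul (T.R 2) v) :
    False := by
  classical
  have hv : T.Cur v := (h17 L _ T v).2 (Or.inr ⟨0, ho⟩)
  obtain ⟨-, b2, -, -, b5⟩ := h18 L _ T 0 v ho
  have h3 := h.1 v hv
  rw [ip_KK] at h3
  have c1 : (T.cl v).1 = 0 := b2
  have c2 : (T.cl v).2 0 = -1 := mul_of_ord ho
  have c3 : 1 ≤ (T.cl v).2 1 := h1
  have c4 : 1 ≤ (T.cl v).2 2 := h2
  have h4 : ∀ i ∈ (Finset.univ.erase (0 : Fin (k + 3))), 0 ≤ (T.cl v).2 i := by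
    intro i hi
    have hi0 : i ≠ 0 := Finset.ne_of_mem_erase hi
    have : (0 : Fin (k + 3)) < i := Fin.pos_of_ne_zero hi0
    rcases b5 i this with h5 | h5
    · exact h5.ge
    · change 0 ≤ mul (T.R i) v
      rw [h5]
      norm_num
  have h5 : (T.cl v).2 1 + (T.cl v).2 2 ≤ ∑ i ∈ Finset.univ.erase (0 : Fin (k + 3)), (T.cl v).2 i := by
    have h6 : ({1, 2} : Finset (Fin (k + 3))) ⊆ Finset.univ.erase 0 := by
      intro i hi
      rw [Finset.mem_insert, Finset.mem_singleton] at hi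
      rw [Finset.mem_erase]
      rcases hi with rfl | rfl
      · exact ⟨ne10 k, Finset.mem_univ _⟩
      · exact ⟨ne20 k, Finset.mem_univ _⟩
    calc (T.cl v).2 1 + (T.cl v).2 2 = ∑ i ∈ ({1, 2} : Finset (Fin (k + 3))), (T.cl v).2 i := by
          rw [Finset.sum_pair (ne21 k).symm]
      _ ≤ _ := Finset.sum_le_sum_of_subset_of_nonneg h6 fun i hi _ => h4 i hi
  rw [← Finset.add_sum_erase _ _ (Finset.mem_univ (0 : Fin (k + 3))), c1, c2] at h3
  linarith

end

end H84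

open H84 in
/-- Row QD. -/
theorem qd_main (h6 : ST_A6) (h7 : ST_A7) (h13 : ST_A13) (h14 : ST_A14) (h17 : ST_A17)
    (h18 : ST_A18) (hSW : ST_SW) (hNA : ST_NA) (hNB : ST_NB) (hNC : ST_NC) (hQS : ST_QS) :
    ST_QD := by
  intro L _ _ k T hK hL
  have f0 : ∀ T : PStr L (k + 3), fst3 T.R 0 = T.R 0 := fun T => rfl
  have f1 : ∀ T : PStr L (k + 3), fst3 T.R 1 = T.R 1 := fun T => by rw [← castLE_one']; rfl
  have f2 : ∀ T : PStr L (k + 3), fst3 T.R 2 = T.R 2 := fun T => by rw [← castLE_two']; rfl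
  have v0 : ∀ T : PStr L (k + 3), T.R 0 ∈ plane T.S := fun T => T.valid 0
  have hmul : ∀ {R R' : Subalgebra ℂ L} {v : DVal L}, Next R R' → Through R' v → 1 ≤ mul R' v :=
    fun hN hv => mul_pos h6 h7 (next_loc hN).2 hv
  -- case B
  have caseB : ∀ T : PStr L (k + 3), Good T → Next (T.R 0) (T.R 1) → T.R 2 ∈ plane T.S →
      T.R 2 ≠ T.R 0 → QOK T := by
    intro T hg hN hp hne
    obtain ⟨S0, S', hs, hstd⟩ := hNB L T.S (fst3 T.R) (by rw [f0]; exact v0 T)
      (by rw [f0, f1]; exact hN) (by rw [f2]; exact hp) (by rw [f0, f2]; exact hne)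
      (noLine h17 T hg)
    exact qok_of_std hQS T S0 S' hs (Or.inr (Or.inl hstd))
  -- case B2: the third point is near to the first, the second is proper
  have caseB2 : ∀ T : PStr L (k + 3), Good T → T.R 1 ∈ plane T.S → T.R 1 ≠ T.R 0 →
      Next (T.R 0) (T.R 2) → QOK T := by
    intro T hg hp hne hN
    have hn : ¬ Next (T.R 1) (T.R 2) := by
      intro hN'
      exact hne (next_unique h13 h14 T 0 hp (v0 T) hN' hN)
    obtain ⟨Ts, a1, a2, a3, a4⟩ := swap12 hSW T hn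
    have s0 : (Equiv.swap (1 : Fin (k + 3)) 2) 0 = 0 :=
      Equiv.swap_apply_of_ne_of_ne (ne10 k).symm (ne20 k).symm
    have s1 : (Equiv.swap (1 : Fin (k + 3)) 2) 1 = 2 := Equiv.swap_apply_left _ _
    have s2 : (Equiv.swap (1 : Fin (k + 3)) 2) 2 = 1 := Equiv.swap_apply_right _ _
    have r0 : Ts.R 0 = T.R 0 := by rw [a3, Function.comp_apply, s0]
    have r1 : Ts.R 1 = T.R 2 := by rw [a3, Function.comp_apply, s1]
    have r2 : Ts.R 2 = T.R 1 := by rw [a3, Function.comp_apply, s2]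
    apply conj12 h13 h17 h18 hSW T Ts a2 a3 a4
    apply caseB Ts (good_pm12 T Ts a2 a4 hg)
    · rw [r0, r1]; exact hN
    · rw [r2, a1]; exact hp
    · rw [r2, r0]; exact hne
  have hG : Good T := ⟨hK, hL⟩
  -- positions of the points
  have v1 : (T.R 1 ∈ plane T.S ∧ T.R 1 ≠ T.R 0) ∨ Next (T.R 0) (T.R 1) := by
    have h1 := T.valid 1
    have e1 : ((1 : Fin (k + 3)) : ℕ) = 0 + 1 := by rw [← castLE_one']; rfl
    rw [e1] at h1
    simp only [surf] at h1
    rw [dif_pos (by omega)] at h1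
    rcases h1 with h1 | h1
    · exact Or.inl ⟨h1.1, h1.2⟩
    · exact Or.inr h1
  have v2 : ((T.R 2 ∈ plane T.S ∧ T.R 2 ≠ T.R 0) ∨ Next (T.R 0) (T.R 2)) ∧ T.R 2 ≠ T.R 1 ∨
      Next (T.R 1) (T.R 2) := by
    have h1 := T.valid 2
    have e2 : ((2 : Fin (k + 3)) : ℕ) = 0 + 1 + 1 := by rw [← castLE_two']; rfl
    have g1 : (⟨0 + 1, by omega⟩ : Fin (k + 3)) = 1 := by
      rw [← castLE_one']; ext; simp
    rw [e2] at h1
    simp only [surf] at h1
    rw [dif_pos (by omega), dif_pos (by omega)] at h1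
    rcases h1 with h1 | h1
    · refine Or.inl ⟨?_, ?_⟩
      · rcases h1.1 with h2 | h2
        · exact Or.inl ⟨h2.1, h2.2⟩
        · exact Or.inr h2
      · intro hh
        apply h1.2
        rw [Set.mem_singleton_iff, g1]
        exact hh
    · refine Or.inr ?_
      have h2 : Next (T.R ⟨0 + 1, by omega⟩) (T.R 2) := h1
      rwa [g1] at h2
  change QOK T
  rcases v1 with ⟨p1, n1⟩ | N1
  · rcases v2 with ⟨⟨p2, n2⟩ | N2, n21⟩ | N2
    · -- three proper points
      have hinj : Function.Injective (fst3 T.R) := by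
        intro i j hij
        fin_cases i <;> fin_cases j
        · rfl
        · exact absurd (by rw [← f0 T, ← f1 T]; exact hij.symm) n1
        · exact absurd (by rw [← f0 T, ← f2 T]; exact hij.symm) n2
        · exact absurd (by rw [← f0 T, ← f1 T]; exact hij) n1
        · rfl
        · exact absurd (by rw [← f1 T, ← f2 T]; exact hij.symm) n21
        · exact absurd (by rw [← f0 T, ← f2 T]; exact hij) n2
        · exact absurd (by rw [← f1 T, ← f2 T]; exact hij) n21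
        · rfl
      obtain ⟨S0, S', hs, hstd⟩ := hNA L T.S (fst3 T.R) (by
        intro i
        fin_cases i
        · exact v0 T
        · change fst3 T.R 1 ∈ plane T.S
          rw [f1]; exact p1
        · change fst3 T.R 2 ∈ plane T.S
          rw [f2]; exact p2) hinj (noLine h17 T hG)
      exact qok_of_std hQS T S0 S' hs (Or.inl hstd)
    · exact caseB2 T hG p1 n1 N2
    · -- the third point near to the second
      have hn : ¬ Next (T.R 0) (T.R 1) := by
        intro hN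
        obtain ⟨⟨P, hP⟩, -⟩ := next_loc hN
        have ho : IsOrd (T.R 0) P.ord := hP ▸ isOrd_ord P
        have ht := ((h13 L _ _ P.ord hN).2.2.2.2 ho).1
        exact (h18 L _ T 0 P.ord ho).1 (planeCur_of_through h17 p1 ht)
      obtain ⟨Ts, a1, a2, a3, a4⟩ := swap01 hSW T hn
      have s0 : (Equiv.swap (0 : Fin (k + 3)) 1) 0 = 1 := Equiv.swap_apply_left _ _
      have s1 : (Equiv.swap (0 : Fin (k + 3)) 1) 1 = 0 := Equiv.swap_apply_right _ _
      have s2 : (Equiv.swap (0 : Fin (k + 3)) 1) 2 = 2 :=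
        Equiv.swap_apply_of_ne_of_ne (ne20 k) (ne21 k)
      have r0 : Ts.R 0 = T.R 1 := by rw [a3, Function.comp_apply, s0]
      have r1 : Ts.R 1 = T.R 0 := by rw [a3, Function.comp_apply, s1]
      have r2 : Ts.R 2 = T.R 2 := by rw [a3, Function.comp_apply, s2]
      apply conj01 h13 h17 h18 hSW T Ts a2 a3 a4
      apply caseB2 Ts (good_pm01 T Ts a2 a4 hG)
      · rw [r1, a1]; exact v0 T
      · rw [r1, r0]; exact n1.symm
      · rw [r0, r2]; exact N2
  · rcases v2 with ⟨⟨p2, n2⟩ | N2, n21⟩ | N2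
    · exact caseB T hG N1 p2 n2
    · exfalso
      obtain ⟨⟨P, hP⟩, -⟩ := next_loc N1
      have ho : IsOrd (T.R 0) P.ord := hP ▸ isOrd_ord P
      have m1 := ((h13 L _ _ P.ord N1).2.2.2.2 ho).2
      have m2 := ((h13 L _ _ P.ord N2).2.2.2.2 ho).2
      exact exc_bound h17 h18 T hG ho m1.ge m2.ge
    · obtain ⟨S0, S', hs, hstd⟩ := hNC L T.S (fst3 T.R) (by rw [f0]; exact v0 T)
        (by rw [f0, f1]; exact N1) (by rw [f1, f2]; exact N2)
        (by
          rw [f0, f2]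
          intro v ho ht
          have m1 := ((h13 L _ _ v N1).2.2.2.2 ho).2
          exact exc_bound h17 h18 T hG ho m1.ge (hmul N2 ht)) (noLine h17 T hG)
      exact qok_of_std hQS T S0 S' hs (Or.inr (Or.inr hstd))

end LCY
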