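import Pool.Agent.Helper27.LCY.BR2
import Pool.Agent.Helper2.LCY.E1b

/-!
Non-vacuity check of the definitions of MP_f7e214_ag, part W1: the projective plane as a variety,
its dimension, its function field and the fact that it is birationally ruled.
-/

open Polynomial

namespace LCY

namespace Wit

noncomputable section

/-- The projective plane. -/
def P : Var 2 where
  I := ⊥
  prime := Ideal.isPrime_bot
  homogeneous := by
    intro f hf n
    rw [Ideal.mem_bot] at hf ⊢
    rw [hf, map_zero]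
  relevant := ⟨0, by rw [Ideal.mem_bot]; exact MvPolynomial.X_ne_zero 0⟩

theorem mem_I {f : S 2} : f ∈ P.I ↔ f = 0 := Ideal.mem_bot

theorem X_notMem (i : Fin 3) : (MvPolynomial.X i : S 2) ∉ P.I := fun h =>
  MvPolynomial.X_ne_zero i (mem_I.1 h)

theorem hasDim : P.HasDim 2 := by
  have e : S 2 ≃ₐ[ℂ] (S 2 ⧸ P.I) := (AlgEquiv.quotientBot ℂ (S 2)).symm
  have h1 : Algebra.trdeg ℂ (S 2) = 3 := by
    have := MvPolynomial.trdeg_of_isDomain (S := ℂ) (ι := Fin 3)
    rw [this]
    simp
  have h2 : Algebra.trdeg ℂ (S 2 ⧸ P.I) = 3 := by rw [← h1]; exact (AlgEquiv.trdeg_eq e).symm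
  unfold Var.HasDim
  rw [h2]
  norm_num

/-- The class of a polynomial vanishes only for the zero polynomial. -/
theorem cls_inj {f g : S 2} (h : P.cls f = P.cls g) : f = g := by
  by_contra hne
  have h1 : f - g ∉ P.I := fun h2 => hne (sub_eq_zero.1 (mem_I.1 h2))
  apply P.cls_ne h1
  have h2 := P.cls_add (f - g) g
  rw [sub_add_cancel, h] at h2
  exact (left_eq_add.1 (by rw [add_comm] at h2; exact h2))

theorem cls_X_ne (i : Fin 3) : P.cls (MvPolynomial.X i) ≠ 0 := P.cls_ne (X_notMem i)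

/-- The coordinate `x_i / x_0`. -/
def w (i : Fin 3) : P.L :=
  ⟨P.cls (MvPolynomial.X i) / P.cls (MvPolynomial.X 0), ⟨1, MvPolynomial.X i, MvPolynomial.X 0,
    MvPolynomial.isHomogeneous_X _ _, MvPolynomial.isHomogeneous_X _ _, X_notMem 0, X_notMem 0, rfl⟩⟩

theorem coe_w (i : Fin 3) : ((w i : P.L) : P.K) = P.cls (MvPolynomial.X i) /
    P.cls (MvPolynomial.X 0) := rfl

theorem w_zero : w 0 = 1 := by
  apply Subtype.ext
  rw [coe_w, div_self (cls_X_ne 0)]
  rfl

theorem w_ne (i : Fin 3) : w i ≠ 0 := by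
  intro h
  have h1 := congrArg Subtype.val h
  rw [coe_w] at h1
  exact div_ne_zero (cls_X_ne i) (cls_X_ne 0) h1

/-- The affine coordinates of the plane. -/
abbrev u : P.L := w 1

/-- The affine coordinates of the plane. -/
abbrev v : P.L := w 2

/-- The coordinates of `Var.x` in terms of `u` and `v`. -/
theorem x_eq (i : Fin 3) : P.x i = w i / w P.i0 := by
  apply Subtype.ext
  rw [P.coe_x]
  change _ = ((w i : P.L) : P.K) / ((w P.i0 : P.L) : P.K)
  rw [coe_w, coe_w, div_div_div_cancel_right₀ (cls_X_ne 0)]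
  rfl

theorem adjoin_uv : IntermediateField.adjoin ℂ {u, v} = ⊤ := by
  rw [eq_top_iff, ← P.adjoin_x, IntermediateField.adjoin_le_iff]
  rintro _ ⟨i, rfl⟩
  have h1 : ∀ j : Fin 3, w j ∈ IntermediateField.adjoin ℂ {u, v} := by
    intro j
    fin_cases j
    · show w 0 ∈ _
      rw [w_zero]
      exact one_mem _
    · exact IntermediateField.subset_adjoin ℂ _ (by simp)
    · exact IntermediateField.subset_adjoin ℂ _ (by simp)
  rw [x_eq]
  exact div_mem (h1 i) (h1 _)

theorem trdeg : Algebra.trdeg ℂ P.L = 2 := P.trdeg_L hasDim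

theorem indep : AlgebraicIndependent ℂ ![u, v] := by
  have hr : Set.range ![u, v] = {u, v} := by simp [Set.pair_comm]
  have halg : Algebra.IsAlgebraic (Algebra.adjoin ℂ (Set.range ![u, v])) P.L := by
    refine ⟨fun z => ?_⟩
    have hz : z ∈ IntermediateField.adjoin ℂ {u, v} := by rw [adjoin_uv]; trivial
    rw [IntermediateField.mem_adjoin_iff_div, ← hr] at hz
    obtain ⟨r, hr, s, hs, rfl⟩ := hz
    have h3 : IsAlgebraic (Algebra.adjoin ℂ (Set.range ![u, v]))
      (algebraMap (Algebra.adjoin ℂ (Set.range ![u, v])) P.L ⟨r, hr⟩) := isAlgebraic_algebraMap _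
    have h4 : IsAlgebraic (Algebra.adjoin ℂ (Set.range ![u, v]))
      (algebraMap (Algebra.adjoin ℂ (Set.range ![u, v])) P.L ⟨s, hs⟩) := isAlgebraic_algebraMap _
    rw [div_eq_mul_inv]
    exact h3.mul h4.inv
  refine (Algebra.IsAlgebraic.isTranscendenceBasis_of_le_trdeg_of_finite ℂ ![u, v] ?_).1
  rw [trdeg]
  simp

/-- Algebraically independent elements have no polynomial relation. -/
theorem ev_inj {L : Type} [Field L] [Algebra ℂ L] {a b : L} (h : AlgebraicIndependent ℂ ![a, b])
    (f : ℂ[X][X]) (hf : ev a b f = 0) : f = 0 := by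
  let ψ : MvPolynomial (Fin 2) ℂ →ₐ[ℂ] ℂ[X][X] := MvPolynomial.aeval ![C X, X]
  let χ : ℂ[X][X] →+* MvPolynomial (Fin 2) ℂ :=
    eval₂RingHom (aeval (MvPolynomial.X 0) : ℂ[X] →ₐ[ℂ] MvPolynomial (Fin 2) ℂ).toRingHom
      (MvPolynomial.X 1)
  have e1 : ψ.toRingHom.comp χ = RingHom.id _ := by
    refine Polynomial.ringHom_ext' (Polynomial.ringHom_ext' (RingHom.ext fun c => ?_) ?_) ?_
    · have := ψ.commutes c
      simp [χ]
    · simp [χ, ψ]
    · simp [χ, ψ]
  have e2 : (MvPolynomial.aeval ![a, b] : MvPolynomial (Fin 2) ℂ →ₐ[ℂ] L).toRingHom.comp χ =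
      ev a b := by
    refine Polynomial.ringHom_ext' (Polynomial.ringHom_ext' (RingHom.ext fun c => ?_) ?_) ?_
    · simp [χ, ev]
    · simp [χ, ev]
    · simp [χ, ev]
  have h1 : MvPolynomial.aeval ![a, b] (χ f) = 0 := by
    rw [← hf, ← e2]
    rfl
  have h2 : χ f = 0 := (algebraicIndependent_iff.1 h) _ h1
  have h3 := congrArg ψ h2
  rw [map_zero] at h3
  have h4 := RingHom.congr_fun e1 f
  rw [RingHom.id_apply] at h4
  rw [← h4]
  exact h3

/-- The function field of the plane is `ℂ(u, v)`. -/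
def coord : Coord P.L where
  x := u
  y := v
  inj := ev_inj indep
  surj := by
    intro z
    have hz : z ∈ IntermediateField.adjoin ℂ {u, v} := by rw [adjoin_uv]; trivial
    have hmem : ∀ z ∈ Algebra.adjoin ℂ ({u, v} : Set P.L), ∃ f, ev u v f = z := by
      intro z hz
      induction hz using Algebra.adjoin_induction with
      | mem x hx =>
        rcases hx with hx | hx
        · exact ⟨C X, by rw [ev_CX, hx]⟩
        · rw [Set.mem_singleton_iff] at hx
          exact ⟨X, by rw [ev_X, hx]⟩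
      | algebraMap r => exact ⟨C (C r), ev_CC _ _ _⟩
      | add x y _ _ hx hy =>
        obtain ⟨f, rfl⟩ := hx
        obtain ⟨g, rfl⟩ := hy
        exact ⟨f + g, map_add _ _ _⟩
      | mul x y _ _ hx hy =>
        obtain ⟨f, rfl⟩ := hx
        obtain ⟨g, rfl⟩ := hy
        exact ⟨f * g, map_mul _ _ _⟩
    rw [IntermediateField.mem_adjoin_iff_div] at hz
    obtain ⟨r, hr, s, hs, rfl⟩ := hz
    obtain ⟨f, rfl⟩ := hmem r hr
    obtain ⟨g, rfl⟩ := hmem s hs
    by_cases hg : g = 0
    · exact ⟨0, 1, one_ne_zero, by rw [hg, map_zero, div_zero, zero_div]⟩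
    · exact ⟨f, g, hg, rfl⟩

theorem uniruled : P.Uniruled := ⟨_, _, H2.isRuling coord⟩

/-- The value of a form in the affine coordinates. -/
theorem aeval_w {f : S 2} {n : ℕ} (hf : f.IsHomogeneous n) :
    ((MvPolynomial.aeval w f : P.L) : P.K) = P.cls f / P.cls (MvPolynomial.X 0) ^ n := by
  have h1 : ((MvPolynomial.aeval w f : P.L) : P.K) =
      MvPolynomial.aeval (fun i => ((w i : P.L) : P.K)) f := by
    have h2 := MvPolynomial.comp_aeval (R := ℂ) w P.L.val
    have h3 : (P.L.val) (MvPolynomial.aeval w f) =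
        MvPolynomial.aeval (fun i => P.L.val (w i)) f := by
      rw [← AlgHom.comp_apply, h2]
    exact h3
  have h3 : (fun i => ((w i : P.L) : P.K)) =
      fun i => (P.cls (MvPolynomial.X 0))⁻¹ * P.cls (MvPolynomial.X i) := by
    funext i
    rw [coe_w, div_eq_inv_mul]
  rw [h1, h3, aeval_smul_hom _ _ hf, P.aeval_cls, inv_pow, div_eq_inv_mul]

/-- A fraction in the affine coordinates. -/
theorem frac_w {F G : S 2} {n : ℕ} (hF : F.IsHomogeneous n) (hG : G.IsHomogeneous n) {z : P.L}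
    (hz : (z : P.K) = P.cls F / P.cls G) :
    z = MvPolynomial.aeval w F / MvPolynomial.aeval w G := by
  apply Subtype.ext
  change (z : P.K) = ((MvPolynomial.aeval w F : P.L) : P.K) /
    ((MvPolynomial.aeval w G : P.L) : P.K)
  rw [aeval_w hF, aeval_w hG, hz]
  exact (div_div_div_cancel_right₀ (pow_ne_zero n (cls_X_ne 0)) _ _).symm

end

end Wit

end LCY
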