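import Pool.Agent.Helper84.LCY.WitA
import Pool.Agent.Helper27.LCY.BR6

open scoped TensorProduct
open KaehlerDifferential

namespace LCY

namespace Wit

noncomputable section

/-- The partial derivatives of a purely transcendental field of transcendence degree two. -/
theorem exists_der {L : Type} [Field L] [Algebra ℂ L] {a b : L}
    (h : AlgebraicIndependent ℂ ![a, b]) (htop : IntermediateField.adjoin ℂ {a, b} = ⊤) :
    ∃ d : Fin 2 → Derivation ℂ L L, d 0 a = 1 ∧ d 0 b = 0 ∧ d 1 a = 0 ∧ d 1 b = 1 := by
  let A := MvPolynomial (Fin 2) ℂ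
  letI : Algebra A L := (MvPolynomial.aeval ![a, b] : A →ₐ[ℂ] L).toRingHom.toAlgebra
  have hmap : ∀ f : A, algebraMap A L f = MvPolynomial.aeval ![a, b] f := fun _ => rfl
  haveI : IsScalarTower ℂ A L := IsScalarTower.of_algebraMap_eq fun c => by
    rw [hmap, MvPolynomial.algebraMap_eq, MvPolynomial.aeval_C]
  have hinj : Function.Injective (algebraMap A L) := h
  haveI : FaithfulSMul A L := (faithfulSMul_iff_algebraMap_injective A L).2 hinj
  haveI : IsFractionRing A L := by
    refine IsFractionRing.of_field A L fun z => ?_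
    have hz : z ∈ IntermediateField.adjoin ℂ {a, b} := by rw [htop]; trivial
    have hr : Set.range ![a, b] = {a, b} := by simp [Set.pair_comm]
    rw [IntermediateField.mem_adjoin_iff_div, ← hr, Algebra.adjoin_range_eq_range_aeval] at hz
    obtain ⟨_, ⟨F, rfl⟩, _, ⟨G, rfl⟩, rfl⟩ := hz
    exact ⟨F, G, rfl⟩
  haveI : Algebra.FormallyEtale A L := Algebra.FormallyEtale.of_isLocalization (nonZeroDivisors A)
  let e := KaehlerDifferential.tensorKaehlerEquivOfFormallyEtale ℂ A L
  let B := (KaehlerDifferential.mvPolynomialBasis ℂ (Fin 2)).baseChange L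
  let d : Fin 2 → Derivation ℂ L L := fun i =>
    ((B.coord i).comp e.symm.toLinearMap).compDer (KaehlerDifferential.D ℂ L)
  have key : ∀ i j : Fin 2, d i (![a, b] j) = if j = i then 1 else 0 := by
    intro i j
    have h1 : ![a, b] j = algebraMap A L (MvPolynomial.X j) := by
      rw [hmap, MvPolynomial.aeval_X]
    have h2 : e.symm (KaehlerDifferential.D ℂ L (![a, b] j)) =
        (1 : L) ⊗ₜ[A] KaehlerDifferential.D ℂ A (MvPolynomial.X j) := by
      rw [h1]
      exact KaehlerDifferential.tensorKaehlerEquivOfFormallyEtale_symm_D_algebraMap ℂ A L _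
    change B.coord i (e.symm (KaehlerDifferential.D ℂ L (![a, b] j))) = _
    rw [h2, ← KaehlerDifferential.mvPolynomialBasis_apply, ← Module.Basis.baseChange_apply L,
      Module.Basis.coord_apply, Module.Basis.repr_self, Finsupp.single_apply]
  refine ⟨d, ?_, ?_, ?_, ?_⟩
  · exact (key 0 0).trans (by simp)
  · exact (key 0 1).trans (by simp)
  · exact (key 1 0).trans (by simp)
  · exact (key 1 1).trans (by simp)

/-- The standard bracket of a purely transcendental field of transcendence degree two. -/
theorem exists_br {L : Type} [Field L] [Algebra ℂ L] {a b : L}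
    (h : AlgebraicIndependent ℂ ![a, b]) (htop : IntermediateField.adjoin ℂ {a, b} = ⊤) :
    ∃ B : Bracket L, B.br a b = 1 := by
  obtain ⟨d, h1, h2, h3, h4⟩ := exists_der h htop
  refine ⟨⟨fun x y => d 0 x * d 1 y - d 1 x * d 0 y, ?_, ?_, ?_, ?_, ?_, ?_⟩, ?_⟩
  · intro x y z
    simp only [map_add]; ring
  · intro x y z
    simp only [Derivation.leibniz, smul_eq_mul]; ring
  · intro z c
    simp
  · intro x
    ring
  · intro x y
    ring
  · exact ⟨a, b, by simp [h1, h2, h3, h4]⟩
  · simp [h1, h2, h3, h4]

/-- The form `du ∧ dv` does not vanish. -/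
theorem wdg_uv_ne : wdg u v ≠ 0 := by
  obtain ⟨B, hB⟩ := exists_br indep adjoin_uv
  exact wdg_ne_zero_of_br B (by rw [hB]; exact one_ne_zero)

end

end Wit

end LCY
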